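import Pool.Agent.Q120.LD.Stm

/-!
# Project LD, job DELM: empty progressions
-/

set_option autoImplicit false

namespace Pool.Agent.Q237.LD

open Finset MeasureTheory Filter Pool.Agent.Q120.ET Pool.Agent.Q120.GM Pool.Agent.Q120.GE Pool.Agent.Q120.RZ
open scoped Topology

/-- the modulus at the scale `k` -/
noncomputable def md (δ : ℝ) (k : ℕ) : ℕ := ⌈(2 : ℝ) ^ ((1 - δ) * k)⌉₊

open Classical in
/-- the indicator function of the set left out -/
noncomputable def dd (δ : ℝ) (n : ℕ) : ℝ := if md δ (Nat.log 2 n) ∣ n then 1 else 0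

theorem dd_nonneg (δ : ℝ) (n : ℕ) : 0 ≤ dd δ n := by
  unfold dd; split_ifs <;> norm_num

theorem dd_le_one (δ : ℝ) (n : ℕ) : dd δ n ≤ 1 := by
  unfold dd; split_ifs <;> norm_num

open Classical in
theorem cnt_blk {δ : ℝ} (j : ℕ) :
    (((Ico (2 ^ j) (2 ^ (j + 1))).filter (fun n => md δ (Nat.log 2 n) ∣ n)).card : ℝ) ≤ 2 * (2 : ℝ) ^ (δ * j) := by
  have h1 : (Ico (2 ^ j) (2 ^ (j + 1))).filter (fun n => md δ (Nat.log 2 n) ∣ n) ⊆
      (Ioc 0 (2 ^ (j + 1))).filter (fun n => md δ j ∣ n) := by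
    intro n hn
    rw [mem_filter, mem_Ico] at hn
    rw [mem_filter, mem_Ioc]
    have h2 : Nat.log 2 n = j := Nat.log_eq_of_pow_le_of_lt_pow hn.1.1 hn.1.2
    rw [h2] at hn
    have : 0 < 2 ^ j := by positivity
    exact ⟨⟨by omega, by omega⟩, hn.2⟩
  have h2 := card_le_card h1
  rw [Nat.Ioc_filter_dvd_card_eq_div] at h2
  have h3 : (((Ico (2 ^ j) (2 ^ (j + 1))).filter (fun n => md δ (Nat.log 2 n) ∣ n)).card : ℝ) ≤
      ((2 ^ (j + 1) / md δ j : ℕ) : ℝ) := by exact_mod_cast h2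
  refine h3.trans (Nat.cast_div_le.trans ?_)
  have h4 : (2 : ℝ) ^ ((1 - δ) * j) ≤ md δ j := Nat.le_ceil _
  have h5 : (0 : ℝ) < (2 : ℝ) ^ ((1 - δ) * j) := by positivity
  have h6 : (((2 ^ (j + 1) : ℕ) : ℝ)) = 2 * (2 : ℝ) ^ (δ * j) * (2 : ℝ) ^ ((1 - δ) * j) := by
    rw [mul_assoc, ← Real.rpow_add (by norm_num)]
    have e : δ * j + (1 - δ) * j = (j : ℝ) := by ring
    rw [e, Real.rpow_natCast]
    push_cast
    ring
  rw [h6, div_le_iff₀ (lt_of_lt_of_le h5 h4)]
  exact mul_le_mul_of_nonneg_left h4 (by positivity)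

theorem t_DELM : Pool.Agent.Q120.LD.J_DELM := by
  classical
  intro hKL δ hδ hδ1
  have hp0 : ∀ n, 0 ≤ (1 - dd δ n) * pc n := fun n =>
    mul_nonneg (by linarith [dd_le_one δ n]) (Pool.Agent.Q111.GE.pc_nonneg n)
  have hp1 : ∀ n, (1 - dd δ n) * pc n ≤ 1 := fun n => by
    have h1 := dd_nonneg δ n
    have h2 := dd_le_one δ n
    have h3 := Pool.Agent.Q111.GE.pc_nonneg n
    have h4 := Pool.Agent.Q111.GE.pc_le_one n
    nlinarith
  have hmod := isModel (fun n => (1 - dd δ n) * pc n) hp0 hp1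
  refine ⟨ℕ → Bool, inferInstance, prodMeasure (fun n => (1 - dd δ n) * pc n), inferInstance, trueSet,
    hmod.meas, ⟨24 * (1 / (1 - (2 : ℝ) ^ (-δ))), fun k => ?_⟩, ?_⟩
  · have h1 := hKL _ _ _ (dd δ) hmod (low (k + 1)) (fun n hn => by
      unfold low at hn; exact (mem_Ico.1 hn).1)
    refine h1.trans ?_
    have h2 : ∑ n ∈ low (k + 1), 12 * (dd δ n ^ 2 * pc n) ≤
        ∑ n ∈ low (k + 1), (if md δ (Nat.log 2 n) ∣ n then (12 : ℝ) else 0) := by
      refine sum_le_sum (fun n _ => ?_)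
      unfold dd
      split_ifs
      · have := Pool.Agent.Q111.GE.pc_le_one n
        linarith
      · simp
    refine h2.trans ?_
    have h3 : ∀ n ∈ low (k + 1), Nat.log 2 n ∈ range (k + 1) := by
      intro n hn
      unfold low at hn
      rw [mem_Ico] at hn
      rw [mem_range]
      exact Nat.log_lt_of_lt_pow (by omega) hn.2
    have h4 : ∑ n ∈ low (k + 1), (if md δ (Nat.log 2 n) ∣ n then (12 : ℝ) else 0) ≤
        ∑ j ∈ range (k + 1), ∑ n ∈ Ico (2 ^ j) (2 ^ (j + 1)), (if md δ (Nat.log 2 n) ∣ n then (12 : ℝ) else 0) := by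
      rw [← sum_fiberwise_of_maps_to h3]
      refine sum_le_sum (fun j _ => ?_)
      refine sum_le_sum_of_subset_of_nonneg ?_ (fun n _ _ => by split_ifs <;> norm_num)
      intro n hn
      rw [mem_filter] at hn
      obtain ⟨hn1, rfl⟩ := hn
      unfold low at hn1
      rw [mem_Ico] at hn1
      rw [mem_Ico]
      exact ⟨Nat.pow_log_le_self 2 (by omega), Nat.lt_pow_succ_log_self (by norm_num) n⟩
    refine h4.trans ?_
    have h5 : ∀ j ∈ range (k + 1), ∑ n ∈ Ico (2 ^ j) (2 ^ (j + 1)),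
        (if md δ (Nat.log 2 n) ∣ n then (12 : ℝ) else 0) ≤ 24 * (2 : ℝ) ^ (δ * j) := by
      intro j _
      rw [← sum_filter, sum_const, nsmul_eq_mul]
      have := cnt_blk (δ := δ) j
      linarith
    refine (sum_le_sum h5).trans ?_
    rw [← mul_sum, mul_assoc]
    refine mul_le_mul_of_nonneg_left ?_ (by norm_num)
    have hr : (2 : ℝ) ^ (-δ) < 1 := Real.rpow_lt_one_of_one_lt_of_neg (by norm_num) (by linarith)
    have hr0 : (0 : ℝ) < (2 : ℝ) ^ (-δ) := by positivity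
    have h6 : ∀ j ∈ range (k + 1), (2 : ℝ) ^ (δ * j) = (2 : ℝ) ^ (δ * k) * ((2 : ℝ) ^ (-δ)) ^ (k - j) := by
      intro j hj
      rw [mem_range] at hj
      rw [← Real.rpow_natCast ((2 : ℝ) ^ (-δ)) (k - j), ← Real.rpow_mul (by norm_num), ← Real.rpow_add (by norm_num)]
      congr 1
      rw [Nat.cast_sub (by omega)]
      ring
    rw [sum_congr rfl h6, ← mul_sum, mul_comm]
    refine mul_le_mul_of_nonneg_right ?_ (by positivity)
    have h7 : ∑ j ∈ range (k + 1), ((2 : ℝ) ^ (-δ)) ^ (k - j) = ∑ j ∈ range (k + 1), ((2 : ℝ) ^ (-δ)) ^ j := by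
      have := sum_range_reflect (fun j => ((2 : ℝ) ^ (-δ)) ^ j) (k + 1)
      rw [← this]
      refine sum_congr rfl (fun j hj => ?_)
      rw [Nat.add_sub_cancel]
    rw [h7, geom_sum_eq hr.ne, ← neg_div_neg_eq, neg_sub, neg_sub]
    refine div_le_div_of_nonneg_right ?_ (by linarith)
    have : 0 < ((2 : ℝ) ^ (-δ)) ^ (k + 1) := by positivity
    linarith
  · have h1 : ∀ n : ℕ, ∀ᵐ ω ∂(prodMeasure (fun n => (1 - dd δ n) * pc n)),
        md δ (Nat.log 2 n) ∣ n → n ∉ trueSet ω := by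
      intro n
      by_cases h : md δ (Nat.log 2 n) ∣ n
      · have h2 := hmod.prob n
        have h3 : dd δ n = 1 := by unfold dd; rw [if_pos h]
        rw [h3, sub_self, zero_mul] at h2
        rw [measureReal_eq_zero_iff] at h2
        rw [ae_iff]
        refine measure_mono_null ?_ h2
        intro ω hω
        simp only [Classical.not_imp, not_not, Set.mem_setOf_eq] at hω
        exact hω.2
      · exact Filter.Eventually.of_forall (fun ω h2 => absurd h2 h)
    filter_upwards [ae_all_iff.2 h1] with ω hω k n hn1 hn2 hdvd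
    refine hω n ?_
    rw [Nat.log_eq_of_pow_le_of_lt_pow hn1 hn2]
    exact hdvd

end Pool.Agent.Q237.LD
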