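import Pool.Agent.Q120.LD.Stm

/-!
# Project LD, job LDM: the level of distribution in the model
-/

set_option autoImplicit false

namespace Pool.Agent.Q237.LD

open Finset MeasureTheory Filter Pool.Agent.Q120.ET Pool.Agent.Q120.GM Pool.Agent.Q120.GE
open scoped Topology

/-- the sign -/
def sr (b : Bool) : ℝ := if b then 1 else -1

theorem abs_sr (b : Bool) : |sr b| ≤ 1 := by
  unfold sr; split_ifs <;> norm_num

/-- the coefficients of a set of triples -/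
noncomputable def co (T : Finset (ℕ × ℕ × Bool)) (n : ℕ) : ℝ := ∑ t ∈ T.filter (fun t => n % t.1 = t.2.1), sr t.2.2

/-- the set of triples -/
def tri (J : Finset ℕ) (a : ℕ → ℕ) (s : ℕ → Bool) : Finset (ℕ × ℕ × Bool) := J.image (fun q => (q, a q % q, s q))

theorem co_tri (J : Finset ℕ) (a : ℕ → ℕ) (s : ℕ → Bool) (n : ℕ) :
    co (tri J a s) n = ∑ q ∈ J.filter (fun q => n % q = a q % q), sr (s q) := by
  unfold co tri
  rw [sum_filter, sum_image (fun q _ q' _ h => congrArg Prod.fst h), sum_filter]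

open Classical in
theorem dev_sum (S : Set ℕ) (q a x : ℕ) : (Pool.Agent.Q120.LD.cntA S q a x : ℝ) - Pool.Agent.Q120.LD.exA q a x =
    ∑ n ∈ Icc 3 x, if n % q = a % q then ((if n ∈ S then 1 else 0) - pc n) else 0 := by
  unfold Pool.Agent.Q120.LD.cntA Pool.Agent.Q120.LD.exA
  rw [← sum_filter, sum_sub_distrib]
  congr 1
  rw [← sum_filter, filter_filter, sum_const, nsmul_eq_mul, mul_one]
  congr 2
  ext n
  simp only [mem_filter]
  tauto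

open Classical in
theorem sum_dev (S : Set ℕ) (J : Finset ℕ) (a : ℕ → ℕ) (x : ℕ) : ∃ s : ℕ → Bool,
    ∑ q ∈ J, Pool.Agent.Q120.LD.dev S q (a q) x =
      ∑ n ∈ Icc 3 x, co (tri J a s) n * ((if n ∈ S then 1 else 0) - pc n) := by
  refine ⟨fun q => decide (0 ≤ (Pool.Agent.Q120.LD.cntA S q (a q) x : ℝ) - Pool.Agent.Q120.LD.exA q (a q) x), ?_⟩
  have h1 : ∀ q ∈ J, Pool.Agent.Q120.LD.dev S q (a q) x =
      ∑ n ∈ Icc 3 x, (if n % q = a q % q then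
        sr (decide (0 ≤ (Pool.Agent.Q120.LD.cntA S q (a q) x : ℝ) - Pool.Agent.Q120.LD.exA q (a q) x)) else 0) *
          ((if n ∈ S then 1 else 0) - pc n) := by
    intro q _
    have h2 : Pool.Agent.Q120.LD.dev S q (a q) x =
        sr (decide (0 ≤ (Pool.Agent.Q120.LD.cntA S q (a q) x : ℝ) - Pool.Agent.Q120.LD.exA q (a q) x)) *
          ((Pool.Agent.Q120.LD.cntA S q (a q) x : ℝ) - Pool.Agent.Q120.LD.exA q (a q) x) := by
      unfold Pool.Agent.Q120.LD.dev sr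
      by_cases h : 0 ≤ (Pool.Agent.Q120.LD.cntA S q (a q) x : ℝ) - Pool.Agent.Q120.LD.exA q (a q) x
      · rw [abs_of_nonneg h]
        simp [h]
      · rw [abs_of_neg (not_le.1 h)]
        simp [h]
    rw [h2]
    conv_lhs => rw [dev_sum, mul_sum]
    refine sum_congr rfl (fun n _ => ?_)
    rw [← dev_sum]
    split_ifs <;> ring
  rw [sum_congr rfl h1, sum_comm]
  refine sum_congr rfl (fun n _ => ?_)
  rw [co_tri, sum_filter, sum_mul]

/-- the bound for one `x` and one dyadic interval of moduli -/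
theorem sub_event (hH : Pool.Agent.Q120.LD.J_HOE) (hT : Pool.Agent.Q120.LD.J_TOP) {β C : ℝ} (hC : 0 < C)
    (hS : ∀ (Q x : ℕ) (J : Finset ℕ) (a : ℕ → ℕ) (s : ℕ → ℝ), 1 ≤ Q →
      J ⊆ Ico Q (2 * Q) → (∀ q, |s q| ≤ 1) →
        ∑ n ∈ Icc 3 x, (∑ q ∈ J.filter (fun q => n % q = a q % q), s q) ^ 2 ≤
          (J.card : ℝ) ^ 2 + C * x * J.card * (Q : ℝ) ^ β / Q)
    {Ω : Type} [MeasurableSpace Ω] {μ : Measure Ω} [IsProbabilityMeasure μ] {A : Ω → Set ℕ} (hA : IsModel μ pc A)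
    {Q x M : ℕ} {I : Finset ℕ} {R : ℝ} (hQ : 1 ≤ Q) (hI : I ⊆ Ico Q (2 * Q)) (hM : 1 ≤ M) (hMI : M ≤ I.card) (hR : 0 < R) :
    μ.real {ω | ∃ a : ℕ → ℕ, R ≤ ∑ q ∈ I, Pool.Agent.Q120.LD.dev (A ω) q (a q) x} ≤
      ((4 * Q ^ 2 : ℕ) : ℝ) ^ M *
        Real.exp (-((M / I.card * R) ^ 2 / (2 * ((M : ℝ) ^ 2 + C * x * M * (Q : ℝ) ^ β / Q)))) := by
  classical
  have hMr : (1 : ℝ) ≤ M := by exact_mod_cast hM
  have hIr : (M : ℝ) ≤ I.card := by exact_mod_cast hMI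
  have hI0 : (0 : ℝ) < I.card := by linarith
  have hQr : (1 : ℝ) ≤ Q := by exact_mod_cast hQ
  obtain ⟨V, hV⟩ : ∃ V : ℝ, V = (M : ℝ) ^ 2 + C * x * M * (Q : ℝ) ^ β / Q := ⟨_, rfl⟩
  obtain ⟨τ, hτ⟩ : ∃ τ : ℝ, τ = M / I.card * R := ⟨_, rfl⟩
  have hτ0 : 0 < τ := by rw [hτ]; positivity
  have hV0 : 0 < V := by rw [hV]; positivity
  rw [← hV, ← hτ]
  obtain ⟨K, hK⟩ : ∃ K : Finset (Finset (ℕ × ℕ × Bool)), K =
      (powersetCard M ((Ico Q (2 * Q)) ×ˢ (range (2 * Q)) ×ˢ (univ : Finset Bool))).filter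
        (fun T => ∃ (J : Finset ℕ) (a : ℕ → ℕ) (s : ℕ → Bool), J ⊆ Ico Q (2 * Q) ∧ J.card = M ∧ T = tri J a s) := ⟨_, rfl⟩
  have hsub : {ω | ∃ a : ℕ → ℕ, R ≤ ∑ q ∈ I, Pool.Agent.Q120.LD.dev (A ω) q (a q) x} ⊆
      ⋃ T ∈ K, {ω | τ ≤ ∑ n ∈ Icc 3 x, co T n * ((if n ∈ A ω then 1 else 0) - pc n)} := by
    rintro ω ⟨a, ha⟩
    obtain ⟨J, hJI, hJc, hJ⟩ := hT I (fun q => Pool.Agent.Q120.LD.dev (A ω) q (a q) x) M
      (fun i _ => by unfold Pool.Agent.Q120.LD.dev; exact abs_nonneg _) hMI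
    obtain ⟨s, hs⟩ := sum_dev (A ω) J a x
    have hinj : Function.Injective (fun q : ℕ => (q, a q % q, s q)) := fun q q' h => congrArg Prod.fst h
    refine Set.mem_biUnion (x := tri J a s) ?_ ?_
    · rw [hK]
      rw [Finset.mem_coe, mem_filter, mem_powersetCard]
      refine ⟨⟨?_, ?_⟩, J, a, s, hJI.trans hI, hJc, rfl⟩
      · intro t ht
        unfold tri at ht
        rw [mem_image] at ht
        obtain ⟨q, hq, rfl⟩ := ht
        have h1 := hI (hJI hq)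
        rw [mem_Ico] at h1
        rw [mem_product, mem_product, mem_Ico, mem_range]
        have := Nat.mod_lt (a q) (show 0 < q by omega)
        refine ⟨h1, ?_, mem_univ _⟩
        show a q % q < 2 * Q
        omega
      · unfold tri
        rw [card_image_of_injective _ hinj, hJc]
    · show τ ≤ ∑ n ∈ Icc 3 x, co (tri J a s) n * ((if n ∈ A ω then 1 else 0) - pc n)
      rw [← hs, hτ, div_mul_eq_mul_div, div_le_iff₀ hI0]
      have h1 : (M : ℝ) * R ≤ M * ∑ q ∈ I, Pool.Agent.Q120.LD.dev (A ω) q (a q) x :=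
        mul_le_mul_of_nonneg_left ha (by linarith)
      refine h1.trans (hJ.trans (le_of_eq (mul_comm _ _)))
  refine (measureReal_mono hsub (measure_ne_top _ _)).trans ((measureReal_biUnion_finset_le _ _).trans ?_)
  have hone : ∀ T ∈ K, μ.real {ω | τ ≤ ∑ n ∈ Icc 3 x, co T n * ((if n ∈ A ω then 1 else 0) - pc n)} ≤
      Real.exp (-(τ ^ 2 / (2 * V))) := by
    intro T hT
    rw [hK, mem_filter] at hT
    obtain ⟨_, J, a, s, hJ1, hJ2, rfl⟩ := hT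
    refine hH Ω μ pc A hA (Icc 3 x) (co (tri J a s)) V τ ?_ hV0 hτ0
    have h1 := hS Q x J a (fun q => sr (s q)) hQ hJ1 (fun q => abs_sr _)
    rw [hJ2] at h1
    rw [hV]
    refine le_trans (le_of_eq ?_) h1
    refine sum_congr rfl (fun n _ => ?_)
    rw [co_tri]
  refine (sum_le_sum hone).trans ?_
  rw [sum_const, nsmul_eq_mul]
  refine mul_le_mul_of_nonneg_right ?_ (Real.exp_pos _).le
  have hcard : K.card ≤ (4 * Q ^ 2) ^ M := by
    rw [hK]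
    refine (card_filter_le _ _).trans ?_
    rw [card_powersetCard, card_product, card_product, Nat.card_Ico, card_range, card_univ, Fintype.card_bool]
    refine (Nat.choose_le_pow _ _).trans (le_of_eq ?_)
    congr 1
    have : 2 * Q - Q = Q := by omega
    rw [this]
    ring
  calc (K.card : ℝ) ≤ (((4 * Q ^ 2) ^ M : ℕ) : ℝ) := by exact_mod_cast hcard
    _ = ((4 * Q ^ 2 : ℕ) : ℝ) ^ M := by push_cast; ring

/-- the exponent -/
theorem expo_bd {β C G θ ν x I M Q : ℝ} (hC : 1 ≤ C) (hβ : 0 < β) (hx : 1 ≤ x) (hM : 1 ≤ M) (hMI : M ≤ I)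
    (hIQ : I ≤ Q) (hQx : Q ≤ x ^ θ) (hθ : θ ≤ 1) (hcase : M = I ∨ x ^ ν ≤ M)
    (h1 : G + 2 * θ ≤ 2 - 4 * β) (h2 : G ≤ 1 - 5 * β) (h3 : G ≤ ν + 1 - θ - 5 * β) :
    x ^ G / (4 * C) ≤ (M / I * x ^ (1 - 2 * β)) ^ 2 / (2 * (M ^ 2 + C * x * M * Q ^ β / Q)) := by
  have hx0 : 0 < x := by linarith
  have hI0 : 0 < I := by linarith
  have hQ0 : 0 < Q := by linarith
  have hM0 : 0 < M := by linarith
  have hQβ : Q ^ β ≤ x ^ β := by
    refine Real.rpow_le_rpow hQ0.le (hQx.trans ?_) hβ.le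
    calc x ^ θ ≤ x ^ (1 : ℝ) := Real.rpow_le_rpow_of_exponent_le hx hθ
      _ = x := Real.rpow_one x
  have hR2 : (x ^ (1 - 2 * β)) ^ 2 = x ^ (2 - 4 * β) := by
    rw [← Real.rpow_natCast, ← Real.rpow_mul hx0.le]
    congr 1
    push_cast
    ring
  have hτ : (M / I * x ^ (1 - 2 * β)) ^ 2 = M ^ 2 / I ^ 2 * x ^ (2 - 4 * β) := by
    rw [mul_pow, hR2, div_pow]
  rw [hτ, div_le_div_iff₀ (by positivity) (by positivity)]
  -- (a)
  have ha : x ^ G * I ^ 2 ≤ x ^ (2 - 4 * β) := by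
    have e1 : I ^ 2 ≤ (x ^ θ) ^ 2 := pow_le_pow_left₀ hI0.le (hIQ.trans hQx) 2
    have e2 : (x ^ θ) ^ 2 = x ^ (2 * θ) := by
      rw [← Real.rpow_natCast, ← Real.rpow_mul hx0.le]
      congr 1
      push_cast
      ring
    rw [e2] at e1
    calc x ^ G * I ^ 2 ≤ x ^ G * x ^ (2 * θ) := mul_le_mul_of_nonneg_left e1 (by positivity)
      _ = x ^ (G + 2 * θ) := (Real.rpow_add hx0 _ _).symm
      _ ≤ x ^ (2 - 4 * β) := Real.rpow_le_rpow_of_exponent_le hx h1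
  have ha' : x ^ G * M ^ 2 ≤ M ^ 2 / I ^ 2 * x ^ (2 - 4 * β) := by
    have : x ^ G * M ^ 2 = M ^ 2 / I ^ 2 * (x ^ G * I ^ 2) := by field_simp
    rw [this]
    exact mul_le_mul_of_nonneg_left ha (by positivity)
  -- (b)
  have hb : x ^ (1 + β + G) * I ≤ M * x ^ (2 - 4 * β) := by
    rcases hcase with h | h
    · rw [h, mul_comm]
      refine mul_le_mul_of_nonneg_left ?_ hI0.le
      exact Real.rpow_le_rpow_of_exponent_le hx (by linarith)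
    · calc x ^ (1 + β + G) * I ≤ x ^ (1 + β + G) * x ^ θ := mul_le_mul_of_nonneg_left (hIQ.trans hQx) (by positivity)
        _ = x ^ (1 + β + G + θ) := (Real.rpow_add hx0 _ _).symm
        _ ≤ x ^ (ν + (2 - 4 * β)) := Real.rpow_le_rpow_of_exponent_le hx (by linarith)
        _ = x ^ ν * x ^ (2 - 4 * β) := Real.rpow_add hx0 _ _
        _ ≤ M * x ^ (2 - 4 * β) := mul_le_mul_of_nonneg_right h (by positivity)
  have hb' : x ^ G * (x * M * Q ^ β / Q) ≤ M ^ 2 / I ^ 2 * x ^ (2 - 4 * β) := by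
    have e1 : x ^ G * (x * M * Q ^ β / Q) ≤ x ^ G * (x * M * x ^ β / I) := by
      refine mul_le_mul_of_nonneg_left ?_ (by positivity)
      refine div_le_div₀ (by positivity) ?_ hI0 hIQ
      exact mul_le_mul_of_nonneg_left hQβ (by positivity)
    refine e1.trans ?_
    have e2 : x ^ G * (x * M * x ^ β / I) = M / I ^ 2 * (x ^ (1 + β + G) * I) := by
      rw [Real.rpow_add hx0, Real.rpow_add hx0, Real.rpow_one]
      field_simp
    have e3 : M ^ 2 / I ^ 2 * x ^ (2 - 4 * β) = M / I ^ 2 * (M * x ^ (2 - 4 * β)) := by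
      field_simp
    rw [e2, e3]
    exact mul_le_mul_of_nonneg_left hb (by positivity)
  have hP : 0 ≤ M ^ 2 / I ^ 2 * x ^ (2 - 4 * β) := by positivity
  have hfin : x ^ G * (2 * (M ^ 2 + C * x * M * Q ^ β / Q)) =
      2 * (x ^ G * M ^ 2) + 2 * C * (x ^ G * (x * M * Q ^ β / Q)) := by
    ring
  rw [hfin]
  have k1 : 2 * (x ^ G * M ^ 2) ≤ 2 * C * (M ^ 2 / I ^ 2 * x ^ (2 - 4 * β)) := by nlinarith
  have k2 : 2 * C * (x ^ G * (x * M * Q ^ β / Q)) ≤ 2 * C * (M ^ 2 / I ^ 2 * x ^ (2 - 4 * β)) :=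
    mul_le_mul_of_nonneg_left hb' (by linarith)
  linarith

/-- one `x` and one dyadic interval, with the numbers -/
theorem one_block (hH : Pool.Agent.Q120.LD.J_HOE) (hT : Pool.Agent.Q120.LD.J_TOP) {β C δ θ ν : ℝ} (hC : 1 ≤ C)
    (hS : ∀ (Q x : ℕ) (J : Finset ℕ) (a : ℕ → ℕ) (s : ℕ → ℝ), 1 ≤ Q →
      J ⊆ Ico Q (2 * Q) → (∀ q, |s q| ≤ 1) →
        ∑ n ∈ Icc 3 x, (∑ q ∈ J.filter (fun q => n % q = a q % q), s q) ^ 2 ≤
          (J.card : ℝ) ^ 2 + C * x * J.card * (Q : ℝ) ^ β / Q)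
    {Ω : Type} [MeasurableSpace Ω] {μ : Measure Ω} [IsProbabilityMeasure μ] {A : Ω → Set ℕ} (hA : IsModel μ pc A)
    (hβ : 0 < β) (hδ : 0 ≤ δ) (hθ1 : θ ≤ 1) (hν : 0 ≤ ν)
    (h1 : max δ ν + 2 * β + 2 * θ ≤ 2 - 4 * β) (h2 : max δ ν + 2 * β ≤ 1 - 5 * β)
    (h3 : max δ ν + 2 * β ≤ ν + 1 - θ - 5 * β) {k : ℕ}
    (e2 : 8 * C ≤ (2 : ℝ) ^ (β * k)) (e3 : 6 * k + 10 ≤ ((2 : ℝ) ^ (β * k)) ^ 2 / (8 * C))
    {x : ℕ} (hx1 : 2 ^ k ≤ x) (hx2 : x < 2 ^ (k + 1)) (j : ℕ) :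
    μ.real {ω | ∃ a : ℕ → ℕ, (x : ℝ) ^ (1 - 2 * β) ≤
      ∑ q ∈ (Icc 1 ⌊(x : ℝ) ^ θ⌋₊).filter (fun q => Nat.log 2 q = j), Pool.Agent.Q120.LD.dev (A ω) q (a q) x} ≤
      Real.exp (-(2 : ℝ) ^ ((δ + β) * k) - (2 * k + 2)) := by
  have hxN : 1 ≤ x := le_trans Nat.one_le_two_pow hx1
  have hx : (1 : ℝ) ≤ x := by exact_mod_cast hxN
  have hx0 : (0 : ℝ) < x := by linarith
  obtain ⟨I, hI⟩ : ∃ I : Finset ℕ, I = (Icc 1 ⌊(x : ℝ) ^ θ⌋₊).filter (fun q => Nat.log 2 q = j) := ⟨_, rfl⟩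
  rw [← hI]
  rcases I.eq_empty_or_nonempty with h | h
  · have : {ω | ∃ a : ℕ → ℕ, (x : ℝ) ^ (1 - 2 * β) ≤ ∑ q ∈ I, Pool.Agent.Q120.LD.dev (A ω) q (a q) x} = ∅ := by
      rw [Set.eq_empty_iff_forall_notMem]
      rintro ω ⟨a, ha⟩
      rw [h, sum_empty] at ha
      have : 0 < (x : ℝ) ^ (1 - 2 * β) := Real.rpow_pos_of_pos hx0 _
      linarith
    rw [this, measureReal_empty]
    exact (Real.exp_pos _).le
  obtain ⟨q₀, hq₀⟩ := h
  obtain ⟨Q, hQ⟩ : ∃ Q : ℕ, Q = 2 ^ j := ⟨_, rfl⟩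
  have hQ1 : 1 ≤ Q := by rw [hQ]; exact Nat.one_le_two_pow
  have hIQ : I ⊆ Ico Q (2 * Q) := by
    intro q hq
    rw [hI, mem_filter, mem_Icc] at hq
    rw [mem_Ico, hQ, ← hq.2]
    refine ⟨Nat.pow_log_le_self 2 (by omega), ?_⟩
    have := Nat.lt_pow_succ_log_self (b := 2) (by norm_num) q
    rw [pow_succ] at this
    omega
  have hcQ : I.card ≤ Q := by
    have := card_le_card hIQ
    rw [Nat.card_Ico] at this
    omega
  have hQq : Q ≤ q₀ := (mem_Ico.1 (hIQ hq₀)).1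
  have hq₀' : q₀ ≤ ⌊(x : ℝ) ^ θ⌋₊ := by
    rw [hI, mem_filter, mem_Icc] at hq₀
    exact hq₀.1.2
  have hQx : (Q : ℝ) ≤ (x : ℝ) ^ θ := by
    have h1 : (Q : ℝ) ≤ ⌊(x : ℝ) ^ θ⌋₊ := by exact_mod_cast hQq.trans hq₀'
    exact h1.trans (Nat.floor_le (by positivity))
  have hxθ : (x : ℝ) ^ θ ≤ x := by
    calc (x : ℝ) ^ θ ≤ (x : ℝ) ^ (1 : ℝ) := Real.rpow_le_rpow_of_exponent_le hx hθ1
      _ = x := Real.rpow_one _
  have hQx' : Q ≤ 2 ^ (k + 1) := by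
    have h1 : (Q : ℝ) ≤ x := hQx.trans hxθ
    have h2 : Q ≤ x := by exact_mod_cast h1
    omega
  obtain ⟨M, hM⟩ : ∃ M : ℕ, M = min I.card ⌈(x : ℝ) ^ ν⌉₊ := ⟨_, rfl⟩
  have hxν : 1 ≤ (x : ℝ) ^ ν := Real.one_le_rpow hx hν
  have hM1 : 1 ≤ M := by
    rw [hM]
    refine le_min (card_pos.2 ⟨q₀, hq₀⟩) ?_
    exact Nat.one_le_ceil_iff.2 (by linarith)
  have hMI : M ≤ I.card := by rw [hM]; exact min_le_left _ _
  have hMx : (M : ℝ) ≤ 2 * (x : ℝ) ^ ν := by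
    have h1 : M ≤ ⌈(x : ℝ) ^ ν⌉₊ := by rw [hM]; exact min_le_right _ _
    have h2 : (M : ℝ) ≤ ⌈(x : ℝ) ^ ν⌉₊ := by exact_mod_cast h1
    have h3 := Nat.ceil_lt_add_one (show 0 ≤ (x : ℝ) ^ ν by positivity)
    linarith
  have hb := sub_event (C := C) (β := β) hH hT (by linarith) hS hA (x := x) (R := (x : ℝ) ^ (1 - 2 * β)) hQ1 hIQ hM1 hMI
    (Real.rpow_pos_of_pos hx0 _)
  refine hb.trans ?_
  have hcase : (M : ℝ) = I.card ∨ (x : ℝ) ^ ν ≤ M := by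
    rcases min_choice I.card ⌈(x : ℝ) ^ ν⌉₊ with h | h
    · left; rw [hM, h]
    · right; rw [hM, h]; exact Nat.le_ceil _
  have hex := expo_bd (x := (x : ℝ)) (I := (I.card : ℝ)) (M := (M : ℝ)) (Q := (Q : ℝ)) hC hβ hx (by exact_mod_cast hM1)
    (by exact_mod_cast hMI) (by exact_mod_cast hcQ) hQx hθ1 hcase h1 h2 h3
  -- the number of the triples
  have hnum : ((4 * Q ^ 2 : ℕ) : ℝ) ^ M ≤ Real.exp (2 * (x : ℝ) ^ ν * (2 * k + 4)) := by
    have k1 : 4 * Q ^ 2 ≤ 2 ^ (2 * k + 4) := by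
      calc 4 * Q ^ 2 ≤ 4 * (2 ^ (k + 1)) ^ 2 := Nat.mul_le_mul_left 4 (Nat.pow_le_pow_left hQx' 2)
        _ = 2 ^ (2 * k + 4) := by
          rw [← pow_mul, show (4 : ℕ) = 2 ^ 2 by norm_num, ← pow_add]
          congr 1
          ring
    have k2 : ((4 * Q ^ 2 : ℕ) : ℝ) ≤ Real.exp (2 * k + 4) := by
      have k3 : ((4 * Q ^ 2 : ℕ) : ℝ) ≤ (2 : ℝ) ^ (2 * k + 4) := by exact_mod_cast k1
      refine k3.trans ?_
      have k4 : (2 : ℝ) ≤ Real.exp 1 := by linarith [Real.add_one_le_exp (1 : ℝ)]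
      refine (pow_le_pow_left₀ (by norm_num) k4 _).trans (le_of_eq ?_)
      rw [← Real.exp_nat_mul]
      congr 1
      push_cast
      ring
    refine (pow_le_pow_left₀ (by positivity) k2 M).trans ?_
    rw [← Real.exp_nat_mul, Real.exp_le_exp]
    exact mul_le_mul_of_nonneg_right hMx (by positivity)
  refine (mul_le_mul_of_nonneg_right hnum (Real.exp_pos _).le).trans ?_
  rw [← Real.exp_add, Real.exp_le_exp]
  obtain ⟨y, hy⟩ : ∃ y : ℝ, y = (x : ℝ) ^ (max δ ν) := ⟨_, rfl⟩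
  obtain ⟨b, hb'⟩ : ∃ b : ℝ, b = (x : ℝ) ^ β := ⟨_, rfl⟩
  have hy1 : 1 ≤ y := by rw [hy]; exact Real.one_le_rpow hx (le_max_of_le_left hδ)
  have hxG : (x : ℝ) ^ (max δ ν + 2 * β) = y * b ^ 2 := by
    rw [Real.rpow_add hx0, hy, hb', ← Real.rpow_natCast ((x : ℝ) ^ β), ← Real.rpow_mul hx0.le]
    congr 2
    push_cast
    ring
  have hνy : (x : ℝ) ^ ν ≤ y := by rw [hy]; exact Real.rpow_le_rpow_of_exponent_le hx (le_max_right _ _)
  have hpow : ∀ c : ℝ, 0 ≤ c → (2 : ℝ) ^ (c * k) ≤ (x : ℝ) ^ c := by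
    intro c hc
    rw [mul_comm, Real.rpow_mul (by norm_num), Real.rpow_natCast]
    refine Real.rpow_le_rpow (by positivity) ?_ hc
    exact_mod_cast hx1
  have hδy : (2 : ℝ) ^ ((δ + β) * k) ≤ y * b := by
    refine (hpow (δ + β) (by linarith)).trans ?_
    rw [Real.rpow_add hx0, hy, hb']
    refine mul_le_mul_of_nonneg_right ?_ (by positivity)
    exact Real.rpow_le_rpow_of_exponent_le hx (le_max_left _ _)
  have hbk : (2 : ℝ) ^ (β * k) ≤ b := by rw [hb']; exact hpow β hβ.le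
  have hb8 : 8 * C ≤ b := e2.trans hbk
  have hb0 : 0 < b := by linarith
  have hb3 : 6 * k + 10 ≤ b ^ 2 / (8 * C) := by
    refine e3.trans ?_
    refine div_le_div_of_nonneg_right ?_ (by linarith)
    exact pow_le_pow_left₀ (by positivity) hbk 2
  have hb4 : b ≤ b ^ 2 / (8 * C) := by
    rw [le_div_iff₀ (by linarith)]
    nlinarith
  rw [hxG] at hex
  have hsplit : y * b ^ 2 / (4 * C) = y * (b ^ 2 / (8 * C)) + y * (b ^ 2 / (8 * C)) := by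
    field_simp
    ring
  have m1 : y * (6 * k + 10) ≤ y * (b ^ 2 / (8 * C)) := mul_le_mul_of_nonneg_left hb3 (by linarith)
  have m2 : y * b ≤ y * (b ^ 2 / (8 * C)) := mul_le_mul_of_nonneg_left hb4 (by linarith)
  have hk0 : (0 : ℝ) ≤ k := Nat.cast_nonneg k
  have m3 : 2 * (x : ℝ) ^ ν * (2 * k + 4) ≤ 2 * y * (2 * k + 4) :=
    mul_le_mul_of_nonneg_right (by linarith) (by linarith)
  have m4 : (2 * k + 2 : ℝ) ≤ y * (2 * k + 2) := by nlinarith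
  have m5 : 2 * y * (2 * k + 4) + y * (2 * k + 2) = y * (6 * k + 10) := by ring
  linarith

theorem t_LDM : Pool.Agent.Q120.LD.J_LDM := by
  intro hH hT hG hS δ θ hδ hδ1 hθ0 hθ
  obtain ⟨β, hβ⟩ : ∃ β : ℝ, β = min (2 - 2 * θ - δ) (min (1 - δ) (1 - θ)) / 20 := ⟨_, rfl⟩
  have b1 : 20 * β ≤ 2 - 2 * θ - δ := by
    have := min_le_left (2 - 2 * θ - δ) (min (1 - δ) (1 - θ))
    linarith
  have b2 : 20 * β ≤ 1 - δ := by
    have h1 := min_le_right (2 - 2 * θ - δ) (min (1 - δ) (1 - θ))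
    have h2 := min_le_left (1 - δ) (1 - θ)
    linarith
  have b3 : 20 * β ≤ 1 - θ := by
    have h1 := min_le_right (2 - 2 * θ - δ) (min (1 - δ) (1 - θ))
    have h2 := min_le_right (1 - δ) (1 - θ)
    linarith
  have b0 : 0 < β := by
    have : 0 < min (2 - 2 * θ - δ) (min (1 - δ) (1 - θ)) :=
      lt_min (by linarith) (lt_min (by linarith) (by linarith))
    rw [hβ]
    linarith
  obtain ⟨C₀, hC₀, hS₀⟩ := hS hG β b0
  obtain ⟨C, hC⟩ : ∃ C : ℝ, C = max C₀ 1 := ⟨_, rfl⟩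
  have hC1 : 1 ≤ C := by rw [hC]; exact le_max_right _ _
  have hCC : C₀ ≤ C := by rw [hC]; exact le_max_left _ _
  have hS' : ∀ (Q x : ℕ) (J : Finset ℕ) (a : ℕ → ℕ) (s : ℕ → ℝ), 1 ≤ Q →
      J ⊆ Ico Q (2 * Q) → (∀ q, |s q| ≤ 1) →
        ∑ n ∈ Icc 3 x, (∑ q ∈ J.filter (fun q => n % q = a q % q), s q) ^ 2 ≤
          (J.card : ℝ) ^ 2 + C * x * J.card * (Q : ℝ) ^ β / Q := by
    intro Q x J a s hQ hJ hs
    refine (hS₀ Q x J a s hQ hJ hs).trans ?_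
    gcongr
  obtain ⟨ν, hν⟩ : ∃ ν : ℝ, ν = max 0 (δ + θ - 1) + 7 * β := ⟨_, rfl⟩
  have n0 : 0 ≤ ν := by
    have := le_max_left 0 (δ + θ - 1)
    rw [hν]; linarith
  have n1 : δ + θ - 1 + 7 * β ≤ ν := by
    have := le_max_right 0 (δ + θ - 1)
    rw [hν]; linarith
  have n2 : ν ≤ 2 - 2 * θ - 6 * β := by
    rw [hν]
    rcases max_choice 0 (δ + θ - 1) with h | h <;> rw [h] <;> linarith
  have n3 : ν ≤ 1 - 7 * β := by
    rw [hν]
    rcases max_choice 0 (δ + θ - 1) with h | h <;> rw [h] <;> linarith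
  have c1 : max δ ν + 2 * β + 2 * θ ≤ 2 - 4 * β := by
    rcases max_choice δ ν with h | h <;> rw [h] <;> linarith
  have c2 : max δ ν + 2 * β ≤ 1 - 5 * β := by
    rcases max_choice δ ν with h | h <;> rw [h] <;> linarith
  have c3 : max δ ν + 2 * β ≤ ν + 1 - θ - 5 * β := by
    rcases max_choice δ ν with h | h <;> rw [h] <;> linarith
  have hr : (1 : ℝ) < (2 : ℝ) ^ β := Real.one_lt_rpow (by norm_num) b0
  have htop : Tendsto (fun k : ℕ => ((2 : ℝ) ^ β) ^ k) atTop atTop := tendsto_pow_atTop_atTop_of_one_lt hr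
  have ev1 : ∀ᶠ k : ℕ in atTop, (k + 1 : ℝ) ≤ (2 : ℝ) ^ (β * k) := by
    have h4 := tendsto_pow_const_div_const_pow_of_one_lt 1 hr
    have h5 : ∀ᶠ k : ℕ in atTop, (k : ℝ) ^ 1 / ((2 : ℝ) ^ β) ^ k ≤ 1 / 2 :=
      h4.eventually_le_const (by norm_num)
    filter_upwards [h5, eventually_ge_atTop 1] with k hk hk1
    have hp : (0 : ℝ) < ((2 : ℝ) ^ β) ^ k := by positivity
    rw [div_le_iff₀ hp, pow_one] at hk
    rw [Real.rpow_mul (by norm_num), Real.rpow_natCast]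
    have : (1 : ℝ) ≤ k := by exact_mod_cast hk1
    linarith
  have ev2 : ∀ᶠ k : ℕ in atTop, 128 * C ≤ (2 : ℝ) ^ (β * k) := by
    filter_upwards [htop.eventually_ge_atTop (128 * C)] with k hk
    rw [Real.rpow_mul (by norm_num), Real.rpow_natCast]
    exact hk
  refine ⟨β, b0, ?_⟩
  filter_upwards [ev1, ev2] with k hk1 hk2 Ω _ μ _ A hA
  have e2 : 8 * C ≤ (2 : ℝ) ^ (β * k) := by linarith
  have hk0 : (0 : ℝ) ≤ k := Nat.cast_nonneg k
  have e3 : 6 * k + 10 ≤ ((2 : ℝ) ^ (β * k)) ^ 2 / (8 * C) := by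
    rw [le_div_iff₀ (by linarith)]
    have h1 : (6 * k + 10) * (8 * C) ≤ (k + 1 : ℝ) * (128 * C) := by nlinarith
    refine h1.trans ?_
    rw [sq]
    exact mul_le_mul hk1 hk2 (by linarith) (by positivity)
  have hsub : {ω | ∃ (x : ℕ) (a : ℕ → ℕ), 2 ^ k ≤ x ∧ x < 2 ^ (k + 1) ∧
      (x : ℝ) ^ (1 - β) ≤ ∑ q ∈ Icc 1 ⌊(x : ℝ) ^ θ⌋₊, Pool.Agent.Q120.LD.dev (A ω) q (a q) x} ⊆
      ⋃ z ∈ ((Ico (2 ^ k) (2 ^ (k + 1))) ×ˢ (range (k + 1)) : Finset (ℕ × ℕ)), {ω | ∃ a : ℕ → ℕ, (z.1 : ℝ) ^ (1 - 2 * β) ≤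
        ∑ q ∈ (Icc 1 ⌊(z.1 : ℝ) ^ θ⌋₊).filter (fun q => Nat.log 2 q = z.2),
          Pool.Agent.Q120.LD.dev (A ω) q (a q) z.1} := by
    rintro ω ⟨x, a, hx1, hx2, h⟩
    have hxN : 1 ≤ x := le_trans Nat.one_le_two_pow hx1
    have hx : (1 : ℝ) ≤ x := by exact_mod_cast hxN
    have hx0 : (0 : ℝ) < x := by linarith
    have hmap : ∀ q ∈ Icc 1 ⌊(x : ℝ) ^ θ⌋₊, Nat.log 2 q ∈ range (k + 1) := by
      intro q hq
      rw [mem_Icc] at hq
      rw [mem_range]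
      have h1 : ⌊(x : ℝ) ^ θ⌋₊ ≤ x := by
        have h2 : (x : ℝ) ^ θ ≤ x := by
          calc (x : ℝ) ^ θ ≤ (x : ℝ) ^ (1 : ℝ) := Real.rpow_le_rpow_of_exponent_le hx (by linarith)
            _ = x := Real.rpow_one _
        exact (Nat.floor_le_floor h2).trans (by rw [Nat.floor_natCast])
      exact Nat.log_lt_of_lt_pow (by omega) (by omega)
    rw [← sum_fiberwise_of_maps_to hmap] at h
    have h2 : ∑ j ∈ range (k + 1), (x : ℝ) ^ (1 - 2 * β) ≤ ∑ j ∈ range (k + 1),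
        ∑ q ∈ (Icc 1 ⌊(x : ℝ) ^ θ⌋₊).filter (fun q => Nat.log 2 q = j), Pool.Agent.Q120.LD.dev (A ω) q (a q) x := by
      refine le_trans ?_ h
      rw [sum_const, card_range, nsmul_eq_mul]
      have h3 : (x : ℝ) ^ (1 - β) = (x : ℝ) ^ β * (x : ℝ) ^ (1 - 2 * β) := by
        rw [← Real.rpow_add hx0]
        congr 1
        ring
      rw [h3]
      refine mul_le_mul_of_nonneg_right ?_ (by positivity)
      have h4 : (2 : ℝ) ^ (β * k) ≤ (x : ℝ) ^ β := by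
        rw [mul_comm, Real.rpow_mul (by norm_num), Real.rpow_natCast]
        refine Real.rpow_le_rpow (by positivity) ?_ b0.le
        exact_mod_cast hx1
      push_cast
      linarith
    obtain ⟨j, hj, hj2⟩ := exists_le_of_sum_le (s := range (k + 1)) ⟨0, by simp⟩ h2
    refine Set.mem_biUnion (x := (x, j)) ?_ ⟨a, hj2⟩
    rw [Finset.mem_coe, mem_product, mem_Ico]
    exact ⟨⟨hx1, hx2⟩, hj⟩
  refine (measureReal_mono hsub (measure_ne_top _ _)).trans ((measureReal_biUnion_finset_le _ _).trans ?_)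
  refine (sum_le_sum (g := fun _ => Real.exp (-(2 : ℝ) ^ ((δ + β) * k) - (2 * k + 2))) (fun z hz => ?_)).trans ?_
  · rw [mem_product, mem_Ico] at hz
    exact one_block hH hT hC1 hS' hA b0 hδ (by linarith) n0 c1 c2 c3 e2 e3 hz.1.1 hz.1.2 z.2
  · rw [sum_const, nsmul_eq_mul, card_product, Nat.card_Ico, card_range]
    have e4 : 2 ^ (k + 1) - 2 ^ k = 2 ^ k := by rw [pow_succ]; omega
    rw [e4]
    have h1 : ((2 ^ k * (k + 1) : ℕ) : ℝ) ≤ Real.exp (2 * k + 2) := by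
      push_cast
      have k4 : (2 : ℝ) ≤ Real.exp 1 := by linarith [Real.add_one_le_exp (1 : ℝ)]
      have k5 : (2 : ℝ) ^ k ≤ Real.exp k := by
        refine (pow_le_pow_left₀ (by norm_num) k4 k).trans (le_of_eq ?_)
        rw [← Real.exp_nat_mul, mul_one]
      have k6 : (k + 1 : ℝ) ≤ Real.exp k := Real.add_one_le_exp _
      calc (2 : ℝ) ^ k * (k + 1) ≤ Real.exp k * Real.exp k := mul_le_mul k5 k6 (by positivity) (Real.exp_pos _).le
        _ = Real.exp (2 * k) := by rw [← Real.exp_add]; congr 1; ring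
        _ ≤ Real.exp (2 * k + 2) := Real.exp_le_exp.2 (by linarith)
    refine (mul_le_mul_of_nonneg_right h1 (Real.exp_pos _).le).trans ?_
    rw [← Real.exp_add, Real.exp_le_exp]
    linarith

end Pool.Agent.Q237.LD
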