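import Pool.Agent.Q120.LD.Stm

/-!
# Project LD, job PTM: the pointwise bound in the model
-/

set_option autoImplicit false

namespace Pool.Agent.Q237.LD

open Finset MeasureTheory Filter Pool.Agent.Q120.ET Pool.Agent.Q120.GM Pool.Agent.Q120.GE Pool.Agent.Q120.RZ
open scoped Topology

/-- the class in `[3, x]` -/
def cls (q a x : ℕ) : Finset ℕ := (Icc 3 x).filter (fun n => n % q = a % q)

theorem card_cls {q a x : ℕ} (hq : 1 ≤ q) (hx : q ≤ x) : ((cls q a x).card : ℝ) ≤ 2 * (x / q) := by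
  have h1 : (cls q a x).card ≤ (range (x / q + 1)).card := by
    refine card_le_card_of_injOn (fun n => n / q) ?_ ?_
    · intro n hn
      have hn' := Finset.mem_coe.1 hn
      unfold cls at hn'
      rw [mem_filter, mem_Icc] at hn'
      have : n / q ≤ x / q := Nat.div_le_div_right hn'.1.2
      simp only [coe_range, Set.mem_Iio]
      omega
    · intro n hn m hm h
      have hn' := Finset.mem_coe.1 hn
      have hm' := Finset.mem_coe.1 hm
      unfold cls at hn' hm'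
      rw [mem_filter, mem_Icc] at hn' hm'
      have e1 := Nat.div_add_mod n q
      have e2 := Nat.div_add_mod m q
      have h' : n / q = m / q := h
      rw [← e1, ← e2, h', hn'.2, hm'.2]
  rw [card_range] at h1
  have h2 : 1 ≤ x / q := (Nat.one_le_div_iff (by omega)).2 hx
  have h3 : (cls q a x).card ≤ 2 * (x / q) := by omega
  have h4 : ((cls q a x).card : ℝ) ≤ ((2 * (x / q) : ℕ) : ℝ) := by exact_mod_cast h3
  refine h4.trans ?_
  push_cast
  exact mul_le_mul_of_nonneg_left Nat.cast_div_le (by norm_num)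

theorem cntA_eq (S : Set ℕ) (q a x : ℕ) : Pool.Agent.Q120.LD.cntA S q a x = num' S (cls q a x) := by
  classical
  unfold Pool.Agent.Q120.LD.cntA num' cls
  congr 1
  ext n
  simp only [mem_filter]
  tauto

theorem exA_eq (q a x : ℕ) : Pool.Agent.Q120.LD.exA q a x = ∑ n ∈ cls q a x, pc n := rfl

theorem dev_mod (S : Set ℕ) (q a x : ℕ) : Pool.Agent.Q120.LD.dev S q (a % q) x = Pool.Agent.Q120.LD.dev S q a x := by
  unfold Pool.Agent.Q120.LD.dev
  rw [cntA_eq, cntA_eq, exA_eq, exA_eq]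
  unfold cls
  rw [Nat.mod_mod]

/-- one triple -/
theorem one_triple (hT : J_TAIL) {δ ε : ℝ} (hδ : 0 ≤ δ) (hε : 0 < ε) {Ω : Type} [MeasurableSpace Ω] {μ : Measure Ω}
    [IsProbabilityMeasure μ] {A : Ω → Set ℕ} (hA : IsModel μ pc A) {k x q : ℕ} (a : ℕ) (hx : 2 ^ k ≤ x) (hq : 1 ≤ q)
    (hqx : q ≤ x) : μ.real {ω | (x : ℝ) ^ ε * (√((x : ℝ) ^ (1 + δ) / q) + (x : ℝ) ^ δ) ≤ Pool.Agent.Q120.LD.dev (A ω) q a x} ≤
      2 * Real.exp (-((2 : ℝ) ^ ((δ + ε) * k) / 16)) := by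
  have hx1 : 1 ≤ x := le_trans hq hqx
  have hxr : (1 : ℝ) ≤ x := by exact_mod_cast hx1
  have hqr : (0 : ℝ) < q := by exact_mod_cast hq
  obtain ⟨X, hX⟩ : ∃ X : ℝ, X = (x : ℝ) ^ δ := ⟨_, rfl⟩
  obtain ⟨E, hE⟩ : ∃ E : ℝ, E = (x : ℝ) ^ ε := ⟨_, rfl⟩
  obtain ⟨y, hy⟩ : ∃ y : ℝ, y = (x : ℝ) / q := ⟨_, rfl⟩
  have hX1 : 1 ≤ X := by rw [hX]; exact Real.one_le_rpow hxr hδ
  have hE1 : 1 ≤ E := by rw [hE]; exact Real.one_le_rpow hxr hε.le
  have hy0 : 0 < y := by rw [hy]; positivity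
  have e1 : (x : ℝ) ^ (1 + δ) / q = X * y := by
    rw [Real.rpow_add (by linarith), Real.rpow_one, hX, hy]
    ring
  obtain ⟨t, ht⟩ : ∃ t : ℝ, t = E * (√(X * y) + X) := ⟨_, rfl⟩
  have hs : 0 ≤ √(X * y) := Real.sqrt_nonneg _
  have hs2 : √(X * y) ^ 2 = X * y := Real.sq_sqrt (by positivity)
  have ht0 : 0 < t := by rw [ht]; positivity
  have hV : ∑ n ∈ cls q a x, pc n ≤ 2 * y := by
    have h1 : ∑ n ∈ cls q a x, pc n ≤ ∑ n ∈ cls q a x, (1 : ℝ) :=
      sum_le_sum (fun n _ => Pool.Agent.Q111.GE.pc_le_one n)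
    rw [sum_const, nsmul_eq_mul, mul_one] at h1
    rw [hy]
    exact h1.trans (card_cls hq hqx)
  have h1 := hT Ω μ pc A hA (cls q a x) (2 * y) t hV ht0
  have h2 : {ω | (x : ℝ) ^ ε * (√((x : ℝ) ^ (1 + δ) / q) + (x : ℝ) ^ δ) ≤ Pool.Agent.Q120.LD.dev (A ω) q a x} =
      {ω | t ≤ |(num' (A ω) (cls q a x) : ℝ) - ∑ n ∈ cls q a x, pc n|} := by
    ext ω
    simp only [Set.mem_setOf_eq]
    rw [e1, ← hX, ← hE, ← ht]
    unfold Pool.Agent.Q120.LD.dev
    rw [cntA_eq, exA_eq]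
  rw [h2]
  refine h1.trans ?_
  have h3 : E * X / 16 ≤ t ^ 2 / (4 * (2 * y + t)) := by
    rcases le_or_gt t (2 * y) with h | h
    · have h4 : t ^ 2 / (16 * y) ≤ t ^ 2 / (4 * (2 * y + t)) :=
        div_le_div_of_nonneg_left (by positivity) (by positivity) (by linarith)
      refine le_trans ?_ h4
      rw [le_div_iff₀ (by positivity)]
      have h5 : E ^ 2 * (X * y) ≤ t ^ 2 := by
        rw [ht, mul_pow]
        refine mul_le_mul_of_nonneg_left ?_ (by positivity)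
        nlinarith
      have h6 : E * (X * y) ≤ E ^ 2 * (X * y) := by
        refine mul_le_mul_of_nonneg_right ?_ (by positivity)
        nlinarith
      linarith
    · have h4 : t ^ 2 / (8 * t) ≤ t ^ 2 / (4 * (2 * y + t)) :=
        div_le_div_of_nonneg_left (by positivity) (by positivity) (by linarith)
      refine le_trans ?_ h4
      rw [le_div_iff₀ (by positivity)]
      have h5 : E * X ≤ t := by
        rw [ht]
        refine mul_le_mul_of_nonneg_left ?_ (by positivity)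
        linarith
      have h6 : 0 < E * X := by positivity
      nlinarith
  have h4 : (2 : ℝ) ^ ((δ + ε) * k) ≤ E * X := by
    rw [hE, hX, ← Real.rpow_add (by linarith), mul_comm, Real.rpow_mul (by norm_num), Real.rpow_natCast, add_comm ε δ]
    refine Real.rpow_le_rpow (by positivity) ?_ (by linarith)
    exact_mod_cast hx
  have h5 : Real.exp (-(t ^ 2 / (4 * (2 * y + t)))) ≤ Real.exp (-((2 : ℝ) ^ ((δ + ε) * k) / 16)) := by
    rw [Real.exp_le_exp]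
    linarith
  linarith

theorem t_PTM : Pool.Agent.Q120.LD.J_PTM := by
  intro hT δ ε hδ hδ1 hε
  have h1 : Tendsto (fun k : ℕ => ((2 : ℝ) ^ (ε / 2)) ^ k) atTop atTop :=
    tendsto_pow_atTop_atTop_of_one_lt (Real.one_lt_rpow (by norm_num) (by linarith))
  have h2 : ∀ᶠ k : ℕ in atTop, (32 : ℝ) ≤ (2 : ℝ) ^ (ε / 2 * k) := by
    filter_upwards [h1.eventually_ge_atTop 32] with k hk
    rw [Real.rpow_mul (by norm_num), Real.rpow_natCast]
    exact hk
  have h3 : ∀ᶠ k : ℕ in atTop, (3 * k + 3 : ℝ) ≤ (2 : ℝ) ^ (ε * k) / 32 := by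
    have hr : (1 : ℝ) < (2 : ℝ) ^ ε := Real.one_lt_rpow (by norm_num) hε
    have h4 := tendsto_pow_const_div_const_pow_of_one_lt 1 hr
    have h5 : ∀ᶠ k : ℕ in atTop, (k : ℝ) ^ 1 / ((2 : ℝ) ^ ε) ^ k ≤ 1 / 192 :=
      h4.eventually_le_const (by norm_num)
    filter_upwards [h5, eventually_ge_atTop 1] with k hk hk1
    have hp : (0 : ℝ) < ((2 : ℝ) ^ ε) ^ k := by positivity
    rw [div_le_iff₀ hp, pow_one] at hk
    rw [Real.rpow_mul (by norm_num), Real.rpow_natCast]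
    have : (1 : ℝ) ≤ k := by exact_mod_cast hk1
    linarith
  filter_upwards [h2, h3] with k hk2 hk3 Ω _ μ _ A hA
  classical
  obtain ⟨J, hJ⟩ : ∃ J : Finset (ℕ × ℕ × ℕ), J = ((Ico (2 ^ k) (2 ^ (k + 1))) ×ˢ (Icc 1 (2 ^ (k + 1))) ×ˢ
      (range (2 ^ (k + 1)))).filter (fun z => z.2.1 ≤ z.1) := ⟨_, rfl⟩
  have hsub : {ω | ∃ x q a : ℕ, 2 ^ k ≤ x ∧ x < 2 ^ (k + 1) ∧ 1 ≤ q ∧ q ≤ x ∧
      (x : ℝ) ^ ε * (√((x : ℝ) ^ (1 + δ) / q) + (x : ℝ) ^ δ) ≤ Pool.Agent.Q120.LD.dev (A ω) q a x} ⊆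
      ⋃ z ∈ J, {ω | (z.1 : ℝ) ^ ε * (√((z.1 : ℝ) ^ (1 + δ) / z.2.1) + (z.1 : ℝ) ^ δ) ≤
        Pool.Agent.Q120.LD.dev (A ω) z.2.1 z.2.2 z.1} := by
    rintro ω ⟨x, q, a, hx1, hx2, hq, hqx, h⟩
    refine Set.mem_biUnion (x := (x, q, a % q)) ?_ ?_
    · rw [hJ]
      simp only [coe_filter, Set.mem_setOf_eq, mem_product, mem_Ico, mem_Icc, mem_range]
      have := Nat.mod_lt a (show 0 < q by omega)
      refine ⟨⟨⟨hx1, hx2⟩, ⟨hq, by omega⟩, by omega⟩, hqx⟩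
    · simp only [Set.mem_setOf_eq]
      rw [dev_mod]
      exact h
  refine (measureReal_mono hsub (measure_ne_top _ _)).trans ((measureReal_biUnion_finset_le _ _).trans ?_)
  have hone : ∀ z ∈ J, μ.real {ω | (z.1 : ℝ) ^ ε * (√((z.1 : ℝ) ^ (1 + δ) / z.2.1) + (z.1 : ℝ) ^ δ) ≤
        Pool.Agent.Q120.LD.dev (A ω) z.2.1 z.2.2 z.1} ≤ 2 * Real.exp (-((2 : ℝ) ^ ((δ + ε) * k) / 16)) := by
    intro z hz
    rw [hJ] at hz
    simp only [mem_filter, mem_product, mem_Ico, mem_Icc, mem_range] at hz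
    exact one_triple hT hδ hε hA z.2.2 hz.1.1.1 hz.1.2.1.1 hz.2
  refine (sum_le_sum hone).trans ?_
  rw [sum_const, nsmul_eq_mul]
  have hcard : (J.card : ℝ) ≤ (2 : ℝ) ^ (3 * k + 2) := by
    have h6 : J.card ≤ 2 ^ (3 * k + 2) := by
      rw [hJ]
      refine (card_filter_le _ _).trans ?_
      rw [card_product, card_product, Nat.card_Ico, Nat.card_Icc, card_range]
      have e1 : 2 ^ (k + 1) - 2 ^ k = 2 ^ k := by rw [pow_succ]; omega
      rw [e1, Nat.add_sub_cancel, ← pow_add, ← pow_add]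
      exact Nat.pow_le_pow_right (by norm_num) (by omega)
    exact_mod_cast h6
  have hpos := Real.exp_pos (-((2 : ℝ) ^ ((δ + ε) * k) / 16))
  have h7 : (J.card : ℝ) * (2 * Real.exp (-((2 : ℝ) ^ ((δ + ε) * k) / 16))) ≤
      (2 : ℝ) ^ (3 * k + 3) * Real.exp (-((2 : ℝ) ^ ((δ + ε) * k) / 16)) := by
    rw [pow_succ (2 : ℝ) (3 * k + 2), mul_assoc]
    exact mul_le_mul_of_nonneg_right hcard (by positivity)
  refine h7.trans ?_
  have h8 : (2 : ℝ) ^ (3 * k + 3) ≤ Real.exp (3 * k + 3) := by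
    have e1 : (2 : ℝ) ≤ Real.exp 1 := by linarith [Real.add_one_le_exp (1 : ℝ)]
    have e2 : (2 : ℝ) ^ (3 * k + 3) ≤ (Real.exp 1) ^ (3 * k + 3) := pow_le_pow_left₀ (by norm_num) e1 _
    rw [← Real.exp_nat_mul] at e2
    refine e2.trans (le_of_eq ?_)
    congr 1
    push_cast
    ring
  refine (mul_le_mul_of_nonneg_right h8 hpos.le).trans ?_
  rw [← Real.exp_add, Real.exp_le_exp]
  have e1 : (2 : ℝ) ^ ((δ + ε) * k) = (2 : ℝ) ^ ((δ + ε / 2) * k) * (2 : ℝ) ^ (ε / 2 * k) := by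
    rw [← Real.rpow_add (by norm_num)]
    congr 1
    ring
  have e2 : (2 : ℝ) ^ ((δ + ε / 2) * k) * 32 ≤ (2 : ℝ) ^ ((δ + ε) * k) := by
    rw [e1]
    exact mul_le_mul_of_nonneg_left hk2 (by positivity)
  have e3 : (2 : ℝ) ^ (ε * k) ≤ (2 : ℝ) ^ ((δ + ε) * k) := by
    refine Real.rpow_le_rpow_of_exponent_le (by norm_num) ?_
    have : (0 : ℝ) ≤ k := Nat.cast_nonneg k
    nlinarith
  linarith

end Pool.Agent.Q237.LD
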