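import Pool.Agent.Q120.LD.Kak
import Pool.Agent.Q237.LD.Ptm

/-!
# Project LD, part 2, job REM: removing a set from the model
-/

set_option autoImplicit false

namespace Pool.Agent.Q237.LD

open Finset MeasureTheory Filter Pool.Agent.Q120.ET Pool.Agent.Q120.GM Pool.Agent.Q120.GE Pool.Agent.Q120.RZ
open scoped Topology

/-- one triple -/
theorem one_triple' (hT : J_TAIL) {ε : ℝ} (hε : 0 < ε) {Ω : Type} [MeasurableSpace Ω] {μ : Measure Ω}
    [IsProbabilityMeasure μ] {p : ℕ → ℝ} (hp : ∀ n, p n ≤ 1) {A : Ω → Set ℕ} (hA : IsModel μ p A) {k x q : ℕ} (a : ℕ)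
    (hx : 2 ^ k ≤ x) (hq : 1 ≤ q) (hqx : q ≤ x) :
    μ.real {ω | (x : ℝ) ^ ε * (√((x : ℝ) / q) + 1) ≤ |(num' (A ω) (cls q a x) : ℝ) - ∑ n ∈ cls q a x, p n|} ≤
      2 * Real.exp (-((2 : ℝ) ^ (ε * k) / 16)) := by
  have hx1 : 1 ≤ x := le_trans hq hqx
  have hxr : (1 : ℝ) ≤ x := by exact_mod_cast hx1
  have hqr : (0 : ℝ) < q := by exact_mod_cast hq
  obtain ⟨E, hE⟩ : ∃ E : ℝ, E = (x : ℝ) ^ ε := ⟨_, rfl⟩
  obtain ⟨y, hy⟩ : ∃ y : ℝ, y = (x : ℝ) / q := ⟨_, rfl⟩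
  have hE1 : 1 ≤ E := by rw [hE]; exact Real.one_le_rpow hxr hε.le
  have hy0 : 0 < y := by rw [hy]; positivity
  obtain ⟨t, ht⟩ : ∃ t : ℝ, t = E * (√y + 1) := ⟨_, rfl⟩
  have hs : 0 ≤ √y := Real.sqrt_nonneg _
  have hs2 : √y ^ 2 = y := Real.sq_sqrt hy0.le
  have ht0 : 0 < t := by rw [ht]; positivity
  have hV : ∑ n ∈ cls q a x, p n ≤ 2 * y := by
    have h1 : ∑ n ∈ cls q a x, p n ≤ ∑ n ∈ cls q a x, (1 : ℝ) := sum_le_sum (fun n _ => hp n)
    rw [sum_const, nsmul_eq_mul, mul_one] at h1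
    rw [hy]
    exact h1.trans (card_cls hq hqx)
  have h1 := hT Ω μ p A hA (cls q a x) (2 * y) t hV ht0
  rw [← hE, ← hy, ← ht]
  refine h1.trans ?_
  have h3 : E / 16 ≤ t ^ 2 / (4 * (2 * y + t)) := by
    rcases le_or_gt t (2 * y) with h | h
    · have h4 : t ^ 2 / (16 * y) ≤ t ^ 2 / (4 * (2 * y + t)) :=
        div_le_div_of_nonneg_left (by positivity) (by positivity) (by linarith)
      refine le_trans ?_ h4
      rw [le_div_iff₀ (by positivity)]
      have h5 : E ^ 2 * y ≤ t ^ 2 := by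
        rw [ht, mul_pow]
        refine mul_le_mul_of_nonneg_left ?_ (by positivity)
        nlinarith
      have h6 : E * y ≤ E ^ 2 * y := by
        refine mul_le_mul_of_nonneg_right ?_ hy0.le
        nlinarith
      linarith
    · have h4 : t ^ 2 / (8 * t) ≤ t ^ 2 / (4 * (2 * y + t)) :=
        div_le_div_of_nonneg_left (by positivity) (by positivity) (by linarith)
      refine le_trans ?_ h4
      rw [le_div_iff₀ (by positivity)]
      have h5 : E ≤ t := by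
        rw [ht]
        nlinarith
      nlinarith
  have h4 : (2 : ℝ) ^ (ε * k) ≤ E := by
    rw [hE, mul_comm, Real.rpow_mul (by norm_num), Real.rpow_natCast]
    refine Real.rpow_le_rpow (by positivity) ?_ hε.le
    exact_mod_cast hx
  have h5 : Real.exp (-(t ^ 2 / (4 * (2 * y + t)))) ≤ Real.exp (-((2 : ℝ) ^ (ε * k) / 16)) := by
    rw [Real.exp_le_exp]
    linarith
  linarith

/-- the bad event of a block -/
def badB (p : ℕ → ℝ) (ε : ℝ) (k : ℕ) (S : Set ℕ) : Prop :=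
  ∃ x q a : ℕ, 2 ^ k ≤ x ∧ x < 2 ^ (k + 1) ∧ 1 ≤ q ∧ q ≤ x ∧
    (x : ℝ) ^ ε * (√((x : ℝ) / q) + 1) ≤ |(num' S (cls q a x) : ℝ) - ∑ n ∈ cls q a x, p n|

theorem cls_mod (q a x : ℕ) : cls q (a % q) x = cls q a x := by
  unfold cls
  rw [Nat.mod_mod]

theorem badB_le (hT : J_TAIL) {ε : ℝ} (hε : 0 < ε) : ∀ᶠ k : ℕ in atTop, ∀ (Ω : Type) [MeasurableSpace Ω]
    (μ : Measure Ω) [IsProbabilityMeasure μ] (p : ℕ → ℝ) (A : Ω → Set ℕ), (∀ n, p n ≤ 1) → IsModel μ p A →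
    μ.real {ω | badB p ε k (A ω)} ≤ (Real.exp (-1)) ^ k := by
  have h3 : ∀ᶠ k : ℕ in atTop, (4 * k + 3 : ℝ) ≤ (2 : ℝ) ^ (ε * k) / 16 := by
    have hr : (1 : ℝ) < (2 : ℝ) ^ ε := Real.one_lt_rpow (by norm_num) hε
    have h4 := tendsto_pow_const_div_const_pow_of_one_lt 1 hr
    have h5 : ∀ᶠ k : ℕ in atTop, (k : ℝ) ^ 1 / ((2 : ℝ) ^ ε) ^ k ≤ 1 / 112 :=
      h4.eventually_le_const (by norm_num)
    filter_upwards [h5, eventually_ge_atTop 1] with k hk hk1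
    have hp : (0 : ℝ) < ((2 : ℝ) ^ ε) ^ k := by positivity
    rw [div_le_iff₀ hp, pow_one] at hk
    rw [Real.rpow_mul (by norm_num), Real.rpow_natCast]
    have : (1 : ℝ) ≤ k := by exact_mod_cast hk1
    linarith
  filter_upwards [h3] with k hk3 Ω _ μ _ p A hp hA
  classical
  obtain ⟨J, hJ⟩ : ∃ J : Finset (ℕ × ℕ × ℕ), J = ((Ico (2 ^ k) (2 ^ (k + 1))) ×ˢ (Icc 1 (2 ^ (k + 1))) ×ˢ
      (range (2 ^ (k + 1)))).filter (fun z => z.2.1 ≤ z.1) := ⟨_, rfl⟩
  have hsub : {ω | badB p ε k (A ω)} ⊆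
      ⋃ z ∈ J, {ω | (z.1 : ℝ) ^ ε * (√((z.1 : ℝ) / z.2.1) + 1) ≤
        |(num' (A ω) (cls z.2.1 z.2.2 z.1) : ℝ) - ∑ n ∈ cls z.2.1 z.2.2 z.1, p n|} := by
    rintro ω ⟨x, q, a, hx1, hx2, hq, hqx, h⟩
    refine Set.mem_biUnion (x := (x, q, a % q)) ?_ ?_
    · rw [hJ]
      simp only [coe_filter, Set.mem_setOf_eq, mem_product, mem_Ico, mem_Icc, mem_range]
      have := Nat.mod_lt a (show 0 < q by omega)
      refine ⟨⟨⟨hx1, hx2⟩, ⟨hq, by omega⟩, by omega⟩, hqx⟩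
    · simp only [Set.mem_setOf_eq]
      rw [cls_mod]
      exact h
  refine (measureReal_mono hsub (measure_ne_top _ _)).trans ((measureReal_biUnion_finset_le _ _).trans ?_)
  have hone : ∀ z ∈ J, μ.real {ω | (z.1 : ℝ) ^ ε * (√((z.1 : ℝ) / z.2.1) + 1) ≤
        |(num' (A ω) (cls z.2.1 z.2.2 z.1) : ℝ) - ∑ n ∈ cls z.2.1 z.2.2 z.1, p n|} ≤
      2 * Real.exp (-((2 : ℝ) ^ (ε * k) / 16)) := by
    intro z hz
    rw [hJ] at hz
    simp only [mem_filter, mem_product, mem_Ico, mem_Icc, mem_range] at hz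
    exact one_triple' hT hε hp hA z.2.2 hz.1.1.1 hz.1.2.1.1 hz.2
  refine (sum_le_sum hone).trans ?_
  rw [sum_const, nsmul_eq_mul]
  have hcard : (J.card : ℝ) ≤ (2 : ℝ) ^ (3 * k + 2) := by
    have h6 : J.card ≤ 2 ^ (3 * k + 2) := by
      rw [hJ]
      refine (card_filter_le _ _).trans ?_
      rw [card_product, card_product, Nat.card_Ico, Nat.card_Icc, card_range]
      have e1 : 2 ^ (k + 1) - 2 ^ k = 2 ^ k := by rw [pow_succ]; omega
      rw [e1, Nat.add_sub_cancel, ← pow_add, ← pow_add]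
      exact Nat.pow_le_pow_right (by norm_num) (by omega)
    exact_mod_cast h6
  have hpos := Real.exp_pos (-((2 : ℝ) ^ (ε * k) / 16))
  have h7 : (J.card : ℝ) * (2 * Real.exp (-((2 : ℝ) ^ (ε * k) / 16))) ≤
      (2 : ℝ) ^ (3 * k + 3) * Real.exp (-((2 : ℝ) ^ (ε * k) / 16)) := by
    rw [pow_succ (2 : ℝ) (3 * k + 2), mul_assoc]
    exact mul_le_mul_of_nonneg_right hcard (by positivity)
  refine h7.trans ?_
  have h8 : (2 : ℝ) ^ (3 * k + 3) ≤ Real.exp (3 * k + 3) := by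
    have e1 : (2 : ℝ) ≤ Real.exp 1 := by linarith [Real.add_one_le_exp (1 : ℝ)]
    have e2 : (2 : ℝ) ^ (3 * k + 3) ≤ (Real.exp 1) ^ (3 * k + 3) := pow_le_pow_left₀ (by norm_num) e1 _
    rw [← Real.exp_nat_mul] at e2
    refine e2.trans (le_of_eq ?_)
    congr 1
    push_cast
    ring
  refine (mul_le_mul_of_nonneg_right h8 hpos.le).trans ?_
  rw [← Real.exp_add, ← Real.exp_nat_mul, Real.exp_le_exp]
  linarith

theorem bad_ae (hT : J_TAIL) {ε : ℝ} (hε : 0 < ε) {Ω : Type} [MeasurableSpace Ω]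
    (μ : Measure Ω) [IsProbabilityMeasure μ] (p : ℕ → ℝ) (A : Ω → Set ℕ) (hp : ∀ n, p n ≤ 1) (hA : IsModel μ p A) :
    ∀ᵐ ω ∂μ, ∀ᶠ k : ℕ in atTop, ¬ badB p ε k (A ω) := by
  have hsum : Summable fun k : ℕ => (Real.exp (-1)) ^ k :=
    summable_geometric_of_lt_one (Real.exp_pos _).le (Real.exp_lt_one_iff.2 (by norm_num))
  have hb : ∀ᶠ k : ℕ in atTop, μ.real {ω | badB p ε k (A ω)} ≤ (Real.exp (-1)) ^ k := by
    filter_upwards [badB_le hT hε] with k hk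
    exact hk Ω μ p A hp hA
  filter_upwards [Pool.Agent.Q120.GM.bc hsum hb] with ω hω
  filter_upwards [hω] with k hk
  exact hk

theorem good_x {p : ℕ → ℝ} {ε : ℝ} {S : Set ℕ} (h : ∀ᶠ k : ℕ in atTop, ¬ badB p ε k S) :
    ∀ᶠ x : ℕ in atTop, ∀ q a : ℕ, 1 ≤ q → q ≤ x →
      |(num' S (cls q a x) : ℝ) - ∑ n ∈ cls q a x, p n| < (x : ℝ) ^ ε * (√((x : ℝ) / q) + 1) := by
  obtain ⟨K, hK⟩ := eventually_atTop.1 h
  filter_upwards [eventually_ge_atTop (2 ^ K)] with x hx q a hq hqx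
  by_contra hcon
  push Not at hcon
  have hx0 : x ≠ 0 := by omega
  refine hK (Nat.log 2 x) ((Nat.le_log_iff_pow_le (by norm_num) hx0).2 hx)
    ⟨x, q, a, Nat.pow_log_le_self 2 hx0, Nat.lt_pow_succ_log_self (by norm_num) x, hq, hqx, hcon⟩

open Classical in
/-- The set `W` contains many elements of a class for many moduli (`q` is a natural number; in
`Pool.Agent.Q120.LD.ManyAP` the binder `q` elaborates as a real number). -/
def ManyN (W : Set ℕ) (θ : ℝ) : Prop := ∀ ε : ℝ, 0 < ε → ∃ᶠ x : ℕ in atTop, ∃ Q : ℕ, 1 ≤ Q ∧ (Q : ℝ) ≤ (x : ℝ) ^ θ ∧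
  (x : ℝ) ^ (-ε) * Q ≤ (((Icc 1 Q).filter (fun q : ℕ => (x : ℝ) ^ (-ε) * Q ≤ q ∧
    ∃ a : ℕ, (x : ℝ) ^ (1 - ε) / Q ≤ (num' W ((Icc 3 x).filter (fun n : ℕ => n % q = a % q)) : ℝ))).card : ℝ)

theorem t_REM (hT : J_TAIL) (hKL : J_KL) (θ δ : ℝ) (W : Set ℕ) (hθ : 0 < θ) (hθ1 : θ < 1) (hδ : 0 ≤ δ)
    (hsp : Pool.Agent.Q120.LD.Sparse W δ) (hmany : ManyN W θ) :
    ∃ (Ω : Type) (_ : MeasurableSpace Ω) (μ : Measure Ω) (_ : IsProbabilityMeasure μ) (A : Ω → Set ℕ),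
      IsRandomSet A ∧ Info μ A δ ∧ ∀ᵐ ω ∂μ, ¬ Pool.Agent.Q120.LD.LevAt (A ω) θ := by
  classical
  obtain ⟨d, hd⟩ : ∃ d : ℕ → ℝ, d = fun n => if n ∈ W then 1 else 0 := ⟨_, rfl⟩
  have hd0 : ∀ n, 0 ≤ d n := fun n => by rw [hd]; simp only; split_ifs <;> norm_num
  have hd1 : ∀ n, d n ≤ 1 := fun n => by rw [hd]; simp only; split_ifs <;> norm_num
  have hp0 : ∀ n, 0 ≤ (1 - d n) * pc n := fun n =>
    mul_nonneg (by linarith [hd1 n]) (Pool.Agent.Q111.GE.pc_nonneg n)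
  have hp1 : ∀ n, (1 - d n) * pc n ≤ 1 := fun n => by
    have h1 := hd0 n
    have h2 := hd1 n
    have h3 := Pool.Agent.Q111.GE.pc_nonneg n
    have h4 := Pool.Agent.Q111.GE.pc_le_one n
    nlinarith
  have hmod := isModel (fun n => (1 - d n) * pc n) hp0 hp1
  refine ⟨ℕ → Bool, inferInstance, prodMeasure (fun n => (1 - d n) * pc n), inferInstance, trueSet,
    hmod.meas, ?_, ?_⟩
  · -- the information
    intro ε hε
    have h1 : Tendsto (fun k : ℕ => ((2 : ℝ) ^ (ε / 2)) ^ k) atTop atTop :=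
      tendsto_pow_atTop_atTop_of_one_lt (Real.one_lt_rpow (by norm_num) (by linarith))
    filter_upwards [hsp (ε / 2) (by linarith), h1.eventually_ge_atTop 12] with k hk1 hk2
    have h2 := hKL _ _ _ d hmod (low (k + 1)) (fun n hn => by
      unfold low at hn; exact (mem_Ico.1 hn).1)
    refine h2.trans ?_
    have h3 : ∑ n ∈ low (k + 1), 12 * (d n ^ 2 * pc n) ≤ ∑ n ∈ low (k + 1), (if n ∈ W then (12 : ℝ) else 0) := by
      refine sum_le_sum (fun n _ => ?_)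
      rw [hd]
      simp only
      split_ifs
      · have := Pool.Agent.Q111.GE.pc_le_one n
        linarith
      · simp
    refine h3.trans ?_
    rw [← sum_filter, sum_const, nsmul_eq_mul]
    have h4 : (((low (k + 1)).filter (fun n => n ∈ W)).card : ℝ) ≤ (2 : ℝ) ^ ((δ + ε / 2) * k) := hk1
    have h5 : (2 : ℝ) ^ ((δ + ε) * k) = (2 : ℝ) ^ ((δ + ε / 2) * k) * ((2 : ℝ) ^ (ε / 2)) ^ k := by
      rw [← Real.rpow_natCast ((2 : ℝ) ^ (ε / 2)) k, ← Real.rpow_mul (by norm_num), ← Real.rpow_add (by norm_num)]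
      congr 1
      ring
    rw [h5]
    exact mul_le_mul h4 hk2 (by norm_num) (by positivity)
  · -- the level
    have hae : ∀ᵐ ω ∂(prodMeasure (fun n => (1 - d n) * pc n)), ∀ j : ℕ, ∀ᶠ k : ℕ in atTop,
        ¬ badB (fun n => (1 - d n) * pc n) (1 / ((j : ℝ) + 1)) k (trueSet ω) := by
      rw [ae_all_iff]
      intro j
      exact bad_ae hT (by positivity) _ _ _ hp1 hmod
    filter_upwards [hae] with ω hω hlev
    obtain ⟨η, C, hη, hC⟩ := hlev
    -- the choice of `ε`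
    obtain ⟨m, hm⟩ : ∃ m : ℝ, m = min η (1 - θ) := ⟨_, rfl⟩
    have hm0 : 0 < m := by rw [hm]; exact lt_min hη (by linarith)
    obtain ⟨j, hj⟩ := exists_nat_gt (10 / m)
    obtain ⟨ε, hε⟩ : ∃ ε : ℝ, ε = 1 / ((j : ℝ) + 1) := ⟨_, rfl⟩
    have hε0 : 0 < ε := by rw [hε]; positivity
    have hεm : 10 * ε ≤ m := by
      rw [div_lt_iff₀ hm0] at hj
      rw [hε, mul_one_div, div_le_iff₀ (by positivity)]
      linarith
    have hε1 : 10 * ε ≤ η := hεm.trans (by rw [hm]; exact min_le_left _ _)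
    have hε2 : 10 * ε ≤ 1 - θ := hεm.trans (by rw [hm]; exact min_le_right _ _)
    have hgood := good_x (hω j)
    rw [← hε] at hgood
    -- large `x`
    have ev1 : ∀ᶠ x : ℕ in atTop, 4 * Real.log x ≤ (x : ℝ) ^ (5 * ε / 2) := by
      have h1 := (isLittleO_log_rpow_atTop (show 0 < 5 * ε / 2 by positivity)).bound (show (0 : ℝ) < 1 / 4 by norm_num)
      have h2 := tendsto_natCast_atTop_atTop.eventually (h1.and (eventually_ge_atTop (1 : ℝ)))
      filter_upwards [h2] with x hx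
      obtain ⟨hx1, hx2⟩ := hx
      have hl : 0 ≤ Real.log x := Real.log_nonneg hx2
      rw [Real.norm_of_nonneg hl, Real.norm_of_nonneg (by positivity)] at hx1
      linarith
    have ev2 : ∀ᶠ x : ℕ in atTop, (2 * |C| + 2) * Real.log x ≤ (x : ℝ) ^ (8 * ε) := by
      have h1 := (isLittleO_log_rpow_atTop (show 0 < 8 * ε by positivity)).bound
        (show (0 : ℝ) < 1 / (2 * |C| + 2) by positivity)
      have h2 := tendsto_natCast_atTop_atTop.eventually (h1.and (eventually_ge_atTop (1 : ℝ)))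
      filter_upwards [h2] with x hx
      obtain ⟨hx1, hx2⟩ := hx
      have hl : 0 ≤ Real.log x := Real.log_nonneg hx2
      rw [Real.norm_of_nonneg hl, Real.norm_of_nonneg (by positivity), one_div, inv_mul_eq_div,
        le_div_iff₀ (by positivity)] at hx1
      linarith
    obtain ⟨x, ⟨Q, hQ1, hQx, hcard⟩, hx3, hg, e1, e2⟩ := ((hmany ε hε0).and_eventually
      ((eventually_ge_atTop 3).and (hgood.and (ev1.and ev2)))).exists
    have hxr : (3 : ℝ) ≤ x := by exact_mod_cast hx3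
    have hx0 : (0 : ℝ) < x := by linarith
    have hx1 : (1 : ℝ) ≤ x := by linarith
    have hl1 : 1 ≤ Real.log x := by
      rw [Real.le_log_iff_exp_le hx0]
      have := Real.exp_one_lt_d9
      linarith
    have hQr : (1 : ℝ) ≤ Q := by exact_mod_cast hQ1
    obtain ⟨G, hG⟩ : ∃ G : Finset ℕ, G = (Icc 1 Q).filter (fun q : ℕ => (x : ℝ) ^ (-ε) * Q ≤ q ∧
      ∃ a : ℕ, (x : ℝ) ^ (1 - ε) / Q ≤ (num' W ((Icc 3 x).filter (fun n => n % q = a % q)) : ℝ)) := ⟨_, rfl⟩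
    rw [← hG] at hcard
    have hGa : ∀ q : ℕ, ∃ a : ℕ, q ∈ G → (x : ℝ) ^ (1 - ε) / Q ≤ (num' W (cls q a x) : ℝ) := by
      intro q
      by_cases hq : q ∈ G
      · have h1 := hq
        rw [hG, mem_filter] at h1
        obtain ⟨_, _, a, ha⟩ := h1
        exact ⟨a, fun _ => ha⟩
      · exact ⟨0, fun h => absurd h hq⟩
    choose a ha using hGa
    have hG1 : ∀ q ∈ G, 1 ≤ q ∧ q ≤ Q ∧ (x : ℝ) ^ (-ε) * Q ≤ q := by
      intro q hq
      rw [hG, mem_filter, mem_Icc] at hq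
      exact ⟨hq.1.1, hq.1.2, hq.2.1⟩
    have hxθ : (x : ℝ) ^ θ ≤ (x : ℝ) ^ (1 - 10 * ε) := Real.rpow_le_rpow_of_exponent_le hx1 (by linarith)
    have hθx : (x : ℝ) ^ θ ≤ x := by
      calc (x : ℝ) ^ θ ≤ (x : ℝ) ^ (1 : ℝ) := Real.rpow_le_rpow_of_exponent_le hx1 hθ1.le
        _ = x := Real.rpow_one _
    -- the ratio
    obtain ⟨R, hR⟩ : ∃ R : ℝ, R = √((x : ℝ) / Q) := ⟨_, rfl⟩
    have hR2 : R ^ 2 = (x : ℝ) / Q := by rw [hR]; exact Real.sq_sqrt (by positivity)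
    have hRlow : (x : ℝ) ^ (5 * ε) ≤ R := by
      rw [hR]
      apply Real.le_sqrt_of_sq_le
      rw [le_div_iff₀ (by linarith)]
      calc ((x : ℝ) ^ (5 * ε)) ^ 2 * Q ≤ ((x : ℝ) ^ (5 * ε)) ^ 2 * (x : ℝ) ^ (1 - 10 * ε) := by
            gcongr
            exact hQx.trans hxθ
        _ = (x : ℝ) := by
            rw [← Real.rpow_natCast, ← Real.rpow_mul hx0.le, ← Real.rpow_add hx0]
            have e3 : 5 * ε * ((2 : ℕ) : ℝ) + (1 - 10 * ε) = 1 := by push_cast; ring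
            rw [e3, Real.rpow_one]
    have hR1 : 1 ≤ R := (Real.one_le_rpow hx1 (by positivity)).trans hRlow
    have hmain : ∀ q ∈ G, (x : ℝ) ^ (1 - ε) / (2 * Q * Real.log x) ≤
        Pool.Agent.Q120.LD.dev (trueSet ω) q (a q) x := by
      intro q hq
      obtain ⟨hq1, hqQ, hqε⟩ := hG1 q hq
      have hqr : (1 : ℝ) ≤ q := by exact_mod_cast hq1
      have hqx : q ≤ x := by
        have h1 : (q : ℝ) ≤ x := by
          have h2 : (q : ℝ) ≤ Q := by exact_mod_cast hqQ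
          linarith
        exact_mod_cast h1
      have h1 := hg q (a q) hq1 hqx
      rw [abs_lt] at h1
      have h2 : (num' W (cls q (a q) x) : ℝ) / Real.log x ≤
          ∑ n ∈ cls q (a q) x, pc n - ∑ n ∈ cls q (a q) x, (1 - d n) * pc n := by
        rw [← sum_sub_distrib]
        have h3 : (num' W (cls q (a q) x) : ℝ) / Real.log x =
            ∑ n ∈ cls q (a q) x, (if n ∈ W then 1 / Real.log x else 0) := by
          rw [← sum_filter, sum_const, nsmul_eq_mul]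
          unfold num'
          rw [mul_one_div]
        rw [h3]
        refine sum_le_sum (fun n hn => ?_)
        unfold cls at hn
        rw [mem_filter, mem_Icc] at hn
        rw [hd]
        simp only
        split_ifs
        · have h4 : (3 : ℝ) ≤ n := by exact_mod_cast hn.1.1
          have h5 : (n : ℝ) ≤ x := by exact_mod_cast hn.1.2
          have h6 : pc n = 1 / Real.log n := by unfold pc; rw [if_pos hn.1.1]
          rw [h6, sub_self, zero_mul, sub_zero]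
          apply one_div_le_one_div_of_le
          · exact Real.log_pos (by linarith)
          · exact Real.log_le_log (by linarith) h5
        · rw [sub_zero, one_mul, sub_self]
      have h3 : Pool.Agent.Q120.LD.dev (trueSet ω) q (a q) x ≥
          (num' W (cls q (a q) x) : ℝ) / Real.log x - (x : ℝ) ^ ε * (√((x : ℝ) / q) + 1) := by
        unfold Pool.Agent.Q120.LD.dev
        rw [cntA_eq, exA_eq]
        have h4 := neg_abs_le ((num' (trueSet ω) (cls q (a q) x) : ℝ) - ∑ n ∈ cls q (a q) x, pc n)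
        linarith [h1.2]
      refine le_trans ?_ h3
      have h4 : (x : ℝ) ^ (1 - ε) / (Q * Real.log x) ≤ (num' W (cls q (a q) x) : ℝ) / Real.log x := by
        rw [← div_div]
        exact div_le_div_of_nonneg_right (ha q hq) (by linarith)
      have h5 : √((x : ℝ) / q) ≤ (x : ℝ) ^ (ε / 2) * R := by
        apply Real.sqrt_le_iff.2
        refine ⟨by positivity, ?_⟩
        rw [mul_pow, hR2, ← Real.rpow_natCast, ← Real.rpow_mul hx0.le]
        have e3 : ε / 2 * ((2 : ℕ) : ℝ) = ε := by push_cast; ring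
        rw [e3, div_le_iff₀ (by linarith)]
        have e4 : (x : ℝ) ^ ε * (x / Q) * ((x : ℝ) ^ (-ε) * Q) = x := by
          have e5 : (x : ℝ) ^ ε * (x : ℝ) ^ (-ε) = 1 := by
            rw [← Real.rpow_add hx0, add_neg_cancel, Real.rpow_zero]
          calc (x : ℝ) ^ ε * (x / Q) * ((x : ℝ) ^ (-ε) * Q) = ((x : ℝ) ^ ε * (x : ℝ) ^ (-ε)) * (x / Q * Q) := by ring
            _ = x := by rw [e5, one_mul, div_mul_cancel₀ _ (by linarith)]
        calc (x : ℝ) = (x : ℝ) ^ ε * (x / Q) * ((x : ℝ) ^ (-ε) * Q) := e4.symm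
          _ ≤ (x : ℝ) ^ ε * (x / Q) * q := by gcongr
      have h6 : (x : ℝ) ^ ε * (√((x : ℝ) / q) + 1) ≤ (x : ℝ) ^ (1 - ε) / (2 * Q * Real.log x) := by
        have f1 : (1 : ℝ) ≤ (x : ℝ) ^ (ε / 2) * R := by
          have := Real.one_le_rpow hx1 (show 0 ≤ ε / 2 by linarith)
          nlinarith
        have f2 : (x : ℝ) ^ ε * (√((x : ℝ) / q) + 1) ≤ 2 * (x : ℝ) ^ (3 * ε / 2) * R := by
          calc (x : ℝ) ^ ε * (√((x : ℝ) / q) + 1) ≤ (x : ℝ) ^ ε * (2 * ((x : ℝ) ^ (ε / 2) * R)) := by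
                gcongr
                linarith
            _ = 2 * ((x : ℝ) ^ ε * (x : ℝ) ^ (ε / 2)) * R := by ring
            _ = 2 * (x : ℝ) ^ (3 * ε / 2) * R := by
                rw [← Real.rpow_add hx0]
                have : ε + ε / 2 = 3 * ε / 2 := by ring
                rw [this]
        refine f2.trans ?_
        rw [le_div_iff₀ (by positivity)]
        have f3 : (x : ℝ) ^ (1 - ε) = (x : ℝ) ^ (-ε) * R ^ 2 * Q := by
          rw [hR2, mul_assoc, div_mul_cancel₀ _ (by linarith), sub_eq_add_neg, Real.rpow_add hx0, Real.rpow_one, mul_comm]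
        rw [f3]
        have f4 : 4 * Real.log x * (x : ℝ) ^ (3 * ε / 2) ≤ (x : ℝ) ^ (-ε) * R := by
          calc 4 * Real.log x * (x : ℝ) ^ (3 * ε / 2) ≤ (x : ℝ) ^ (5 * ε / 2) * (x : ℝ) ^ (3 * ε / 2) := by gcongr
            _ = (x : ℝ) ^ (-ε) * (x : ℝ) ^ (5 * ε) := by
                rw [← Real.rpow_add hx0, ← Real.rpow_add hx0]
                congr 1
                ring
            _ ≤ (x : ℝ) ^ (-ε) * R := by gcongr
        calc 2 * (x : ℝ) ^ (3 * ε / 2) * R * (2 * Q * Real.log x)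
            = (4 * Real.log x * (x : ℝ) ^ (3 * ε / 2)) * (R * Q) := by ring
          _ ≤ ((x : ℝ) ^ (-ε) * R) * (R * Q) := by gcongr
          _ = (x : ℝ) ^ (-ε) * R ^ 2 * Q := by ring
      have h7 : (x : ℝ) ^ (1 - ε) / (Q * Real.log x) = 2 * ((x : ℝ) ^ (1 - ε) / (2 * Q * Real.log x)) := by
        field_simp
      linarith
    -- the sum
    have hsumle := hC x a (by omega)
    have hsub : G ⊆ Icc 1 ⌊(x : ℝ) ^ θ⌋₊ := by
      intro q hq
      obtain ⟨hq1, hqQ, _⟩ := hG1 q hq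
      rw [mem_Icc]
      refine ⟨hq1, Nat.le_floor ?_⟩
      have h2 : (q : ℝ) ≤ Q := by exact_mod_cast hqQ
      linarith
    have hs1 : ∑ q ∈ G, Pool.Agent.Q120.LD.dev (trueSet ω) q (a q) x ≤ C * (x : ℝ) ^ (1 - η) := by
      refine le_trans ?_ hsumle
      refine sum_le_sum_of_subset_of_nonneg hsub (fun q _ _ => ?_)
      unfold Pool.Agent.Q120.LD.dev
      exact abs_nonneg _
    have hs2 : (G.card : ℝ) * ((x : ℝ) ^ (1 - ε) / (2 * Q * Real.log x)) ≤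
        ∑ q ∈ G, Pool.Agent.Q120.LD.dev (trueSet ω) q (a q) x := by
      rw [← nsmul_eq_mul]
      exact card_nsmul_le_sum _ _ _ hmain
    have hs3 : (x : ℝ) ^ (1 - 2 * ε) / (2 * Real.log x) ≤ (G.card : ℝ) * ((x : ℝ) ^ (1 - ε) / (2 * Q * Real.log x)) := by
      have h1 : (x : ℝ) ^ (1 - 2 * ε) / (2 * Real.log x) =
          ((x : ℝ) ^ (-ε) * Q) * ((x : ℝ) ^ (1 - ε) / (2 * Q * Real.log x)) := by
        have h2 : (x : ℝ) ^ (1 - 2 * ε) = (x : ℝ) ^ (-ε) * (x : ℝ) ^ (1 - ε) := by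
          rw [← Real.rpow_add hx0]
          congr 1
          ring
        rw [h2]
        field_simp
      rw [h1]
      exact mul_le_mul_of_nonneg_right hcard (by positivity)
    have hs4 : (x : ℝ) ^ (1 - 2 * ε) / (2 * Real.log x) ≤ C * (x : ℝ) ^ (1 - η) := hs3.trans (hs2.trans hs1)
    rw [div_le_iff₀ (by linarith)] at hs4
    have hs5 : (x : ℝ) ^ (1 - 2 * ε) = (x : ℝ) ^ (8 * ε) * (x : ℝ) ^ (1 - 10 * ε) := by
      rw [← Real.rpow_add hx0]
      congr 1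
      ring
    have hs6 : (x : ℝ) ^ (1 - η) ≤ (x : ℝ) ^ (1 - 10 * ε) := Real.rpow_le_rpow_of_exponent_le hx1 (by linarith)
    have hpos : 0 < (x : ℝ) ^ (1 - 10 * ε) := by positivity
    have hs7 : C * (x : ℝ) ^ (1 - η) * (2 * Real.log x) ≤ |C| * (x : ℝ) ^ (1 - 10 * ε) * (2 * Real.log x) := by
      have h1 : C * (x : ℝ) ^ (1 - η) ≤ |C| * (x : ℝ) ^ (1 - 10 * ε) := by
        calc C * (x : ℝ) ^ (1 - η) ≤ |C| * (x : ℝ) ^ (1 - η) :=
              mul_le_mul_of_nonneg_right (le_abs_self C) (by positivity)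
          _ ≤ |C| * (x : ℝ) ^ (1 - 10 * ε) := by gcongr
      exact mul_le_mul_of_nonneg_right h1 (by linarith)
    have hs8 : (2 * |C| + 2) * Real.log x * (x : ℝ) ^ (1 - 10 * ε) ≤
        |C| * (x : ℝ) ^ (1 - 10 * ε) * (2 * Real.log x) := by
      calc (2 * |C| + 2) * Real.log x * (x : ℝ) ^ (1 - 10 * ε) ≤ (x : ℝ) ^ (8 * ε) * (x : ℝ) ^ (1 - 10 * ε) := by gcongr
        _ = (x : ℝ) ^ (1 - 2 * ε) := hs5.symm
        _ ≤ _ := hs4.trans hs7
    have hs9 : 0 < Real.log x * (x : ℝ) ^ (1 - 10 * ε) := by positivity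
    nlinarith

end Pool.Agent.Q237.LD
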