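import Pool.Agent.Q237.LD.Rem

/-!
# Project LD, part 2, job SEL: pasting the counterexamples
-/

set_option autoImplicit false

namespace Pool.Agent.Q237.LD

open Finset MeasureTheory Filter Pool.Agent.Q120.ET Pool.Agent.Q120.GM Pool.Agent.Q120.GE Pool.Agent.Q120.RZ

/-- the number of the elements of a class -/
theorem cls_le (q a M : ℕ) (s : Finset ℕ) (hs : ∀ n ∈ s, n ≤ M ∧ n % q = a % q) : s.card ≤ M / q + 1 := by
  have h : s.card ≤ (range (M / q + 1)).card := by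
    apply card_le_card_of_injOn (fun n => n / q)
    · intro n hn
      have h1 := (hs n hn).1
      simp only [coe_range, Set.mem_Iio]
      exact Nat.lt_succ_of_le (Nat.div_le_div_right h1)
    · intro n hn n' hn' h
      simp only at h
      have h1 := (hs n hn).2
      have h2 := (hs n' hn').2
      rw [← Nat.div_add_mod n q, ← Nat.div_add_mod n' q, h, h1, h2]
  rwa [card_range] at h

/-- the exponents -/
noncomputable def et (θ : ℝ) (i : ℕ) : ℝ := (1 - θ) / (10 * ((i : ℝ) + 1))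

theorem et_pos {θ : ℝ} (hθ1 : θ < 1) (i : ℕ) : 0 < et θ i := by
  unfold et
  have : 0 < 1 - θ := by linarith
  positivity

theorem et_le {θ : ℝ} (hθ1 : θ < 1) (i : ℕ) : 10 * et θ i ≤ 1 - θ := by
  unfold et
  have h0 : 0 ≤ (i : ℝ) := Nat.cast_nonneg i
  rw [mul_div_assoc', div_le_iff₀ (by positivity)]
  nlinarith

theorem et_le' {θ : ℝ} (hθ : 0 < θ) (i : ℕ) : et θ i * ((i : ℝ) + 1) ≤ 1 := by
  unfold et
  have h0 : 0 < (i : ℝ) + 1 := by positivity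
  have h1 : (1 - θ) / (10 * ((i : ℝ) + 1)) * ((i : ℝ) + 1) = (1 - θ) / 10 := by
    field_simp
  rw [h1]
  linarith

/-- the counterexamples -/
structure Cex (θ δ η : ℝ) (x Q : ℕ) (N : Finset ℕ) : Prop where
  hQ : 1 ≤ Q
  hQx : (Q : ℝ) ≤ (x : ℝ) ^ θ
  hN : N ⊆ Icc 1 x
  hr : (x : ℝ) ^ (-η) * Q ≤ ((Pool.Agent.Q120.LD.rich N Q ((x : ℝ) ^ (1 - η) / Q)).card : ℝ)
  hc : (N.card : ℝ) < (x : ℝ) ^ (δ + η)

theorem exists_cex {θ δ : ℝ} (h : ¬ Pool.Agent.Q120.LD.Kak θ δ) (η : ℝ) (hη : 0 < η) (X : ℕ) :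
    ∃ x : ℕ, X ≤ x ∧ ∃ (Q : ℕ) (N : Finset ℕ), Cex θ δ η x Q N := by
  by_contra hcon
  push Not at hcon
  apply h
  refine ⟨η, hη, ?_⟩
  filter_upwards [eventually_ge_atTop X] with x hx Q N h1 h2 h3 h4
  by_contra h5
  push Not at h5
  exact hcon x hx Q N ⟨h1, h2, h3, h4, h5⟩

/-- The sequence of the counterexamples. -/
theorem exists_seq {θ δ : ℝ} (hθ : 0 < θ) (hθ1 : θ < 1) (h : ¬ Pool.Agent.Q120.LD.Kak θ δ) :
    ∃ (xs Qs : ℕ → ℕ) (Ns : ℕ → Finset ℕ), (∀ i, Cex θ δ (et θ i) (xs i) (Qs i) (Ns i)) ∧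
      (∀ i, 4 ≤ (xs i : ℝ) ^ (et θ i)) ∧ (∀ i, i + 1 ≤ xs i) ∧
      ∀ i, (2 : ℝ) ^ (xs i) ≤ (xs (i + 1) : ℝ) ^ (1 - 3 * et θ (i + 1)) := by
  have hbd : ∀ i v : ℕ, ∃ B : ℕ, ∀ x : ℕ, B ≤ x → (2 : ℝ) ^ v ≤ (x : ℝ) ^ (1 - 3 * et θ i) ∧
      4 ≤ (x : ℝ) ^ (et θ i) ∧ i + 1 ≤ x := by
    intro i v
    have h1 : 0 < 1 - 3 * et θ i := by
      have := et_le hθ1 i
      have := et_pos hθ1 i
      linarith
    have t1 := ((tendsto_rpow_atTop h1).comp tendsto_natCast_atTop_atTop).eventually_ge_atTop ((2 : ℝ) ^ v)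
    have t2 := ((tendsto_rpow_atTop (et_pos hθ1 i)).comp tendsto_natCast_atTop_atTop).eventually_ge_atTop (4 : ℝ)
    obtain ⟨B, hB⟩ := eventually_atTop.1 (t1.and (t2.and (eventually_ge_atTop (i + 1))))
    exact ⟨B, fun x hx => ⟨(hB x hx).1, (hB x hx).2.1, (hB x hx).2.2⟩⟩
  choose B hB using hbd
  have hex : ∀ i X : ℕ, ∃ x : ℕ, X ≤ x ∧ ∃ (Q : ℕ) (N : Finset ℕ), Cex θ δ (et θ i) x Q N :=
    fun i X => exists_cex h (et θ i) (et_pos hθ1 i) X
  choose xx hxx QQ NN hC using hex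
  obtain ⟨xs, hxs0, hxs⟩ : ∃ xs : ℕ → ℕ, xs 0 = xx 0 (B 0 0) ∧ ∀ i, xs (i + 1) = xx (i + 1) (B (i + 1) (xs i)) :=
    ⟨fun n => Nat.rec (xx 0 (B 0 0)) (fun i v => xx (i + 1) (B (i + 1) v)) n, rfl, fun i => rfl⟩
  obtain ⟨pv, hpv0, hpv⟩ : ∃ pv : ℕ → ℕ, pv 0 = 0 ∧ ∀ i, pv (i + 1) = xs i :=
    ⟨fun n => Nat.rec 0 (fun i _ => xs i) n, rfl, fun i => rfl⟩
  have hx : ∀ i, xs i = xx i (B i (pv i)) := by
    intro i
    rcases i with _ | i
    · rw [hxs0, hpv0]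
    · rw [hxs, hpv]
  refine ⟨xs, fun i => QQ i (B i (pv i)), fun i => NN i (B i (pv i)), ?_, ?_, ?_, ?_⟩
  · intro i
    rw [hx]
    exact hC i (B i (pv i))
  · intro i
    rw [hx]
    exact (hB i (pv i) _ (hxx i (B i (pv i)))).2.1
  · intro i
    have := (hB i (pv i) _ (hxx i (B i (pv i)))).2.2
    rwa [← hx] at this
  · intro i
    have := (hB (i + 1) (pv (i + 1)) _ (hxx (i + 1) (B (i + 1) (pv (i + 1))))).1
    rwa [← hx, hpv] at this

theorem t_SEL (θ δ : ℝ) (hθ : 0 < θ) (hθ1 : θ < 1) (hδ : 0 ≤ δ) (h : ¬ Pool.Agent.Q120.LD.Kak θ δ) :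
    ∃ W : Set ℕ, Pool.Agent.Q120.LD.Sparse W δ ∧ ManyN W θ := by
  classical
  obtain ⟨xs, Qs, Ns, hC, h4, hi, h2⟩ := exists_seq hθ hθ1 h
  obtain ⟨ys, hys⟩ : ∃ ys : ℕ → ℝ, ys = fun i => (xs i : ℝ) ^ (1 - 3 * et θ i) := ⟨_, rfl⟩
  have hx1 : ∀ i, (1 : ℝ) ≤ xs i := fun i => by
    have : 1 ≤ xs i := le_trans (Nat.succ_le_succ (Nat.zero_le i)) (hi i)
    exact_mod_cast this
  have hyx : ∀ i, ys i ≤ xs i := by
    intro i
    rw [hys]
    calc (xs i : ℝ) ^ (1 - 3 * et θ i) ≤ (xs i : ℝ) ^ (1 : ℝ) :=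
          Real.rpow_le_rpow_of_exponent_le (hx1 i) (by linarith [et_pos hθ1 i])
      _ = (xs i : ℝ) := Real.rpow_one _
  have h2y : ∀ i, (2 : ℝ) ^ (xs i) ≤ ys (i + 1) := fun i => by rw [hys]; exact h2 i
  have hxy : ∀ i, (xs i : ℝ) ≤ ys (i + 1) := by
    intro i
    refine le_trans ?_ (h2y i)
    have : xs i < 2 ^ (xs i) := Nat.lt_two_pow_self
    exact_mod_cast this.le
  have hymono : Monotone ys := monotone_nat_of_le_succ (fun i => (hyx i).trans (hxy i))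
  have hxmono : Monotone xs := monotone_nat_of_le_succ (fun i => by
    have := (hxy i).trans (hyx (i + 1))
    exact_mod_cast this)
  refine ⟨{n | ∃ i, n ∈ Ns i ∧ ys i ≤ n}, ?_, ?_⟩
  · -- sparse
    intro ε hε
    obtain ⟨i₀, hi₀⟩ := exists_nat_gt ((1 + 3 * (δ + ε / 2)) / (ε / 2))
    have hex : ∀ i, i₀ ≤ i → et θ i * (1 + 3 * (δ + ε / 2)) ≤ ε / 2 := by
      intro i hii
      have h1 : (i₀ : ℝ) ≤ i := by exact_mod_cast hii
      rw [div_lt_iff₀ (by linarith)] at hi₀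
      have h3 : 1 + 3 * (δ + ε / 2) ≤ ((i : ℝ) + 1) * (ε / 2) := by nlinarith
      have h5 := et_le' hθ i
      have h6 := et_pos hθ1 i
      calc et θ i * (1 + 3 * (δ + ε / 2)) ≤ et θ i * (((i : ℝ) + 1) * (ε / 2)) := by gcongr
        _ = (et θ i * ((i : ℝ) + 1)) * (ε / 2) := by ring
        _ ≤ 1 * (ε / 2) := by gcongr
        _ = ε / 2 := one_mul _
    have ev1 : ∀ᶠ k : ℕ in atTop, ys (i₀ + 1) < (2 : ℝ) ^ (k + 1) := by
      have t1 : Tendsto (fun k : ℕ => (2 : ℝ) ^ (k + 1)) atTop atTop :=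
        (tendsto_pow_atTop_atTop_of_one_lt (by norm_num : (1 : ℝ) < 2)).comp (tendsto_add_atTop_nat 1)
      exact t1.eventually_gt_atTop _
    have ev2 : ∀ᶠ k : ℕ in atTop, (k : ℝ) + 1 + (2 : ℝ) ^ (δ + ε / 2) ≤ ((2 : ℝ) ^ (ε / 2)) ^ k := by
      have hb : 1 < (2 : ℝ) ^ (ε / 2) := Real.one_lt_rpow (by norm_num) (by linarith)
      have t1 : Tendsto (fun k : ℕ => (k : ℝ) ^ 1 / ((2 : ℝ) ^ (ε / 2)) ^ k) atTop (nhds 0) :=
        tendsto_pow_const_div_const_pow_of_one_lt 1 hb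
      have t2 : Tendsto (fun k : ℕ => ((2 : ℝ) ^ (ε / 2)) ^ k) atTop atTop := tendsto_pow_atTop_atTop_of_one_lt hb
      filter_upwards [t1.eventually_lt_const (show (0 : ℝ) < 1 / 2 by norm_num),
        t2.eventually_ge_atTop (2 * (1 + (2 : ℝ) ^ (δ + ε / 2)))] with k hk1 hk2
      have hpos : 0 < ((2 : ℝ) ^ (ε / 2)) ^ k := by positivity
      rw [pow_one, div_lt_iff₀ hpos] at hk1
      linarith
    filter_upwards [ev1, ev2] with k hk1 hk2
    -- the least index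
    have hexm : ∃ m : ℕ, (2 : ℝ) ^ (k + 1) ≤ ys m := by
      refine ⟨2 ^ (k + 1) + 1, ?_⟩
      refine le_trans ?_ (hxy (2 ^ (k + 1)))
      have := hi (2 ^ (k + 1))
      have h3 : 2 ^ (k + 1) ≤ xs (2 ^ (k + 1)) := by omega
      exact_mod_cast h3
    obtain ⟨m, hm1, hm2⟩ : ∃ m : ℕ, (2 : ℝ) ^ (k + 1) ≤ ys m ∧ ∀ j < m, ys j < (2 : ℝ) ^ (k + 1) := by
      refine ⟨Nat.find hexm, Nat.find_spec hexm, fun j hj => ?_⟩
      have := Nat.find_min hexm hj
      push Not at this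
      exact this
    have hmi : i₀ + 1 < m := by
      by_contra hcon
      push Not at hcon
      have := hymono hcon
      linarith
    obtain ⟨i, rfl⟩ : ∃ i, m = i + 2 := ⟨m - 2, by omega⟩
    have hii : i₀ ≤ i + 1 := by omega
    have hylt : ys (i + 1) < (2 : ℝ) ^ (k + 1) := hm2 (i + 1) (by omega)
    have hxk : xs i < k + 1 := by
      have h3 : (2 : ℝ) ^ (xs i) < (2 : ℝ) ^ (k + 1) := lt_of_le_of_lt (h2y i) hylt
      exact (pow_lt_pow_iff_right₀ (by norm_num : (1 : ℝ) < 2)).1 h3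
    have hsub : ((low (k + 1)).filter (fun n => n ∈ {n : ℕ | ∃ i, n ∈ Ns i ∧ ys i ≤ (n : ℝ)})) ⊆
        range (k + 1) ∪ Ns (i + 1) := by
      intro n hn
      rw [mem_filter, Set.mem_setOf_eq] at hn
      obtain ⟨hn1, j, hj, hyj⟩ := hn
      have hn2 : n < 2 ^ (k + 1) := by
        unfold low at hn1
        exact (mem_Ico.1 hn1).2
      have hn3 : (n : ℝ) < (2 : ℝ) ^ (k + 1) := by exact_mod_cast hn2
      have hjm : j < i + 2 := by
        by_contra hcon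
        push Not at hcon
        have := hymono hcon
        linarith
      rw [mem_union]
      rcases Nat.lt_or_ge j (i + 1) with hj1 | hj1
      · left
        rw [mem_range]
        have h3 := (mem_Icc.1 ((hC j).hN hj)).2
        have h5 := hxmono (show j ≤ i by omega)
        omega
      · right
        have : j = i + 1 := by omega
        rw [← this]
        exact hj
    have hcard : (num' {n : ℕ | ∃ i, n ∈ Ns i ∧ ys i ≤ (n : ℝ)} (low (k + 1)) : ℝ) ≤ (k : ℝ) + 1 + (Ns (i + 1)).card := by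
      have h3 := (card_le_card hsub).trans (card_union_le _ _)
      rw [card_range] at h3
      unfold num'
      exact_mod_cast h3
    refine hcard.trans ?_
    have hNs : ((Ns (i + 1)).card : ℝ) ≤ (2 : ℝ) ^ ((δ + ε / 2) * k) * (2 : ℝ) ^ (δ + ε / 2) := by
      have h3 := (hC (i + 1)).hc.le
      refine h3.trans ?_
      have h5 := hex (i + 1) hii
      have h6 := et_pos hθ1 (i + 1)
      calc (xs (i + 1) : ℝ) ^ (δ + et θ (i + 1)) ≤ (xs (i + 1) : ℝ) ^ ((1 - 3 * et θ (i + 1)) * (δ + ε / 2)) := by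
            apply Real.rpow_le_rpow_of_exponent_le (hx1 _)
            linarith
        _ = (ys (i + 1)) ^ (δ + ε / 2) := by
            rw [hys]
            simp only
            rw [Real.rpow_mul (by linarith [hx1 (i + 1)])]
        _ ≤ ((2 : ℝ) ^ (k + 1)) ^ (δ + ε / 2) := by
            apply Real.rpow_le_rpow _ hylt.le (by linarith)
            rw [hys]
            positivity
        _ = (2 : ℝ) ^ ((δ + ε / 2) * k) * (2 : ℝ) ^ (δ + ε / 2) := by
            rw [← Real.rpow_natCast, ← Real.rpow_mul (by norm_num), ← Real.rpow_add (by norm_num)]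
            congr 1
            push_cast
            ring
    have h5 : (2 : ℝ) ^ ((δ + ε) * k) = (2 : ℝ) ^ ((δ + ε / 2) * k) * ((2 : ℝ) ^ (ε / 2)) ^ k := by
      rw [← Real.rpow_natCast ((2 : ℝ) ^ (ε / 2)) k, ← Real.rpow_mul (by norm_num), ← Real.rpow_add (by norm_num)]
      congr 1
      ring
    rw [h5]
    have h6 : 1 ≤ (2 : ℝ) ^ ((δ + ε / 2) * k) := Real.one_le_rpow (by norm_num) (by positivity)
    have h7 : (k : ℝ) + 1 ≤ (2 : ℝ) ^ ((δ + ε / 2) * k) * ((k : ℝ) + 1) := by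
      have : 0 ≤ (k : ℝ) + 1 := by positivity
      nlinarith
    calc (k : ℝ) + 1 + (Ns (i + 1)).card ≤
          (2 : ℝ) ^ ((δ + ε / 2) * k) * ((k : ℝ) + 1) + (2 : ℝ) ^ ((δ + ε / 2) * k) * (2 : ℝ) ^ (δ + ε / 2) :=
          add_le_add h7 hNs
      _ = (2 : ℝ) ^ ((δ + ε / 2) * k) * ((k : ℝ) + 1 + (2 : ℝ) ^ (δ + ε / 2)) := by ring
      _ ≤ (2 : ℝ) ^ ((δ + ε / 2) * k) * ((2 : ℝ) ^ (ε / 2)) ^ k := by gcongr
  · -- many progressions
    intro ε hε
    rw [frequently_atTop]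
    intro X
    obtain ⟨i₀, hi₀⟩ := exists_nat_gt (4 / ε)
    obtain ⟨i, hi1, hi2⟩ : ∃ i : ℕ, X ≤ i ∧ i₀ ≤ i := ⟨max X i₀, le_max_left _ _, le_max_right _ _⟩
    have hiε : 4 * et θ i ≤ ε := by
      have h1 : (i₀ : ℝ) ≤ i := by exact_mod_cast hi2
      rw [div_lt_iff₀ hε] at hi₀
      have h3 := et_le' hθ i
      have h5 := et_pos hθ1 i
      have h6 : 4 ≤ ((i : ℝ) + 1) * ε := by nlinarith
      calc 4 * et θ i ≤ (((i : ℝ) + 1) * ε) * et θ i := by gcongr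
        _ = (et θ i * ((i : ℝ) + 1)) * ε := by ring
        _ ≤ 1 * ε := by gcongr
        _ = ε := one_mul _
    refine ⟨xs i, le_trans hi1 (le_trans (Nat.le_succ i) (hi i)), Qs i, (hC i).hQ, (hC i).hQx, ?_⟩
    obtain ⟨η, hη⟩ : ∃ η : ℝ, η = et θ i := ⟨_, rfl⟩
    obtain ⟨x, hx⟩ : ∃ x : ℝ, x = (xs i : ℝ) := ⟨_, rfl⟩
    obtain ⟨Q, hQ⟩ : ∃ Q : ℝ, Q = (Qs i : ℝ) := ⟨_, rfl⟩
    have hc := hC i
    have h4i := h4 i
    have hη0 : 0 < η := by rw [hη]; exact et_pos hθ1 i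
    have hη1 : 10 * η ≤ 1 - θ := by rw [hη]; exact et_le hθ1 i
    have hx1' : 1 ≤ x := by rw [hx]; exact hx1 i
    have hx0 : 0 < x := by linarith
    have hQ1 : 1 ≤ Q := by rw [hQ]; exact_mod_cast hc.hQ
    have hQ0 : 0 < Q := by linarith
    have hyi : ys i = x ^ (1 - 3 * η) := by rw [hys, hx, hη]
    have hr := hc.hr
    have hQx := hc.hQx
    rw [← hη] at hiε h4i hr
    rw [← hx] at h4i hr hQx ⊢
    rw [← hQ] at hr hQx ⊢
    have hy3 : 3 ≤ ys i := by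
      rw [hyi]
      calc (3 : ℝ) ≤ 4 := by norm_num
        _ ≤ x ^ η := h4i
        _ ≤ x ^ (1 - 3 * η) := Real.rpow_le_rpow_of_exponent_le hx1' (by linarith)
    obtain ⟨R, hR⟩ : ∃ R : Finset ℕ, R = Pool.Agent.Q120.LD.rich (Ns i) (Qs i) (x ^ (1 - η) / Q) := ⟨_, rfl⟩
    rw [← hR] at hr
    -- the small moduli
    have hsm : (((R.filter (fun q : ℕ => ¬ (x ^ (-η) * Q / 2 ≤ (q : ℝ)))).card : ℕ) : ℝ) ≤ x ^ (-η) * Q / 2 := by
      have h1 : (R.filter (fun q : ℕ => ¬ (x ^ (-η) * Q / 2 ≤ (q : ℝ)))) ⊆ Icc 1 ⌊x ^ (-η) * Q / 2⌋₊ := by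
        intro q hq
        rw [mem_filter] at hq
        obtain ⟨hq1, hq2⟩ := hq
        rw [hR] at hq1
        unfold Pool.Agent.Q120.LD.rich at hq1
        rw [mem_filter, mem_Icc] at hq1
        push Not at hq2
        rw [mem_Icc]
        exact ⟨hq1.1.1, Nat.le_floor hq2.le⟩
      have h3 := card_le_card h1
      rw [Nat.card_Icc, Nat.add_sub_cancel] at h3
      have h5 : ((⌊x ^ (-η) * Q / 2⌋₊ : ℕ) : ℝ) ≤ x ^ (-η) * Q / 2 := Nat.floor_le (by positivity)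
      have h6 : (((R.filter (fun q : ℕ => ¬ (x ^ (-η) * Q / 2 ≤ (q : ℝ)))).card : ℕ) : ℝ) ≤ (⌊x ^ (-η) * Q / 2⌋₊ : ℕ) := by
        exact_mod_cast h3
      exact h6.trans h5
    have hbg : x ^ (-η) * Q / 2 ≤ (((R.filter (fun q : ℕ => x ^ (-η) * Q / 2 ≤ (q : ℝ))).card : ℕ) : ℝ) := by
      have h1 := card_filter_add_card_filter_not (s := R) (fun q : ℕ => x ^ (-η) * Q / 2 ≤ (q : ℝ))
      have h3 : (((R.filter (fun q : ℕ => x ^ (-η) * Q / 2 ≤ (q : ℝ))).card : ℕ) : ℝ) +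
          (((R.filter (fun q : ℕ => ¬ (x ^ (-η) * Q / 2 ≤ (q : ℝ)))).card : ℕ) : ℝ) = (R.card : ℝ) := by exact_mod_cast h1
      linarith
    have hexp : x ^ (-ε) * Q ≤ x ^ (-η) * Q / 2 := by
      have h1 : x ^ (-ε) * 2 ≤ x ^ (-η) := by
        calc x ^ (-ε) * 2 ≤ x ^ (-ε) * x ^ η := by
              have : (2 : ℝ) ≤ x ^ η := by linarith
              gcongr
          _ = x ^ (-ε + η) := (Real.rpow_add hx0 _ _).symm
          _ ≤ x ^ (-η) := Real.rpow_le_rpow_of_exponent_le hx1' (by linarith)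
      nlinarith
    refine hexp.trans (hbg.trans ?_)
    have hfin : (R.filter (fun q : ℕ => x ^ (-η) * Q / 2 ≤ (q : ℝ))) ⊆
        (Icc 1 (Qs i)).filter (fun q : ℕ => x ^ (-ε) * Q ≤ q ∧
          ∃ a : ℕ, x ^ (1 - ε) / Q ≤ (num' {n : ℕ | ∃ i, n ∈ Ns i ∧ ys i ≤ (n : ℝ)}
            ((Icc 3 (xs i)).filter (fun n : ℕ => n % q = a % q)) : ℝ)) := by
      intro q hq
      rw [mem_filter] at hq
      obtain ⟨hq1, hq2⟩ := hq
      rw [hR] at hq1
      unfold Pool.Agent.Q120.LD.rich at hq1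
      rw [mem_filter] at hq1
      obtain ⟨hq3, a, ha⟩ := hq1
      have hq4 := (mem_Icc.1 hq3).1
      have hqr : (1 : ℝ) ≤ q := by exact_mod_cast hq4
      rw [mem_filter]
      refine ⟨hq3, hexp.trans hq2, a, ?_⟩
      -- the elements below `ys i`
      have h1 : (((Ns i).filter (fun n => n % q = a % q)).filter (fun n : ℕ => ¬ (ys i ≤ (n : ℝ)))).card ≤
          ⌊ys i⌋₊ / q + 1 := by
        apply cls_le q a
        intro n hn
        rw [mem_filter, mem_filter] at hn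
        push Not at hn
        exact ⟨Nat.le_floor hn.2.le, hn.1.2⟩
      have h3 : ((((Ns i).filter (fun n => n % q = a % q)).filter (fun n : ℕ => ¬ (ys i ≤ (n : ℝ)))).card : ℝ) ≤
          ys i / q + 1 := by
        have h5 : ((⌊ys i⌋₊ / q : ℕ) : ℝ) ≤ ys i / q := by
          refine Nat.cast_div_le.trans ?_
          have : ((⌊ys i⌋₊ : ℕ) : ℝ) ≤ ys i := Nat.floor_le (by linarith)
          gcongr
        have h6 : ((((Ns i).filter (fun n => n % q = a % q)).filter (fun n : ℕ => ¬ (ys i ≤ (n : ℝ)))).card : ℝ) ≤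
            ((⌊ys i⌋₊ / q : ℕ) : ℝ) + 1 := by exact_mod_cast h1
        linarith
      have h5 : (((Ns i).filter (fun n => n % q = a % q)).filter (fun n : ℕ => ys i ≤ (n : ℝ))).card ≤
          num' {n : ℕ | ∃ i, n ∈ Ns i ∧ ys i ≤ (n : ℝ)} ((Icc 3 (xs i)).filter (fun n : ℕ => n % q = a % q)) := by
        unfold num'
        apply card_le_card
        intro n hn
        rw [mem_filter, mem_filter] at hn
        obtain ⟨⟨hn1, hn2⟩, hn3⟩ := hn
        rw [mem_filter, mem_filter, mem_Icc]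
        have h6 := (mem_Icc.1 (hc.hN hn1)).2
        have h7 : (3 : ℝ) ≤ n := hy3.trans hn3
        have h8 : 3 ≤ n := by exact_mod_cast h7
        exact ⟨⟨⟨h8, h6⟩, hn2⟩, ⟨i, hn1, hn3⟩⟩
      have h6 := card_filter_add_card_filter_not (s := (Ns i).filter (fun n => n % q = a % q)) (fun n : ℕ => ys i ≤ (n : ℝ))
      have h7 : ((((Ns i).filter (fun n => n % q = a % q)).filter (fun n : ℕ => ys i ≤ (n : ℝ))).card : ℝ) +
          ((((Ns i).filter (fun n => n % q = a % q)).filter (fun n : ℕ => ¬ (ys i ≤ (n : ℝ)))).card : ℝ) =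
          (((Ns i).filter (fun n => n % q = a % q)).card : ℝ) := by exact_mod_cast h6
      have h8 : ((((Ns i).filter (fun n => n % q = a % q)).filter (fun n : ℕ => ys i ≤ (n : ℝ))).card : ℝ) ≤
          (num' {n : ℕ | ∃ i, n ∈ Ns i ∧ ys i ≤ (n : ℝ)} ((Icc 3 (xs i)).filter (fun n : ℕ => n % q = a % q)) : ℝ) := by
        exact_mod_cast h5
      have h9 : ys i / q ≤ 2 * (x ^ (1 - 2 * η) / Q) := by
        rw [div_le_iff₀ (by linarith)]
        have e1 : x ^ (1 - 3 * η) = x ^ (1 - 2 * η) * x ^ (-η) := by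
          rw [← Real.rpow_add hx0]
          congr 1
          ring
        rw [hyi, e1]
        have e2 : 0 ≤ x ^ (1 - 2 * η) / Q := by positivity
        calc x ^ (1 - 2 * η) * x ^ (-η) = 2 * (x ^ (1 - 2 * η) / Q) * (x ^ (-η) * Q / 2) := by
              field_simp
          _ ≤ 2 * (x ^ (1 - 2 * η) / Q) * (q : ℝ) := by gcongr
      have h10 : 1 ≤ x ^ (1 - 2 * η) / Q := by
        rw [le_div_iff₀ hQ0, one_mul]
        refine hQx.trans (Real.rpow_le_rpow_of_exponent_le hx1' (by linarith))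
      have h11 : 4 * (x ^ (1 - 2 * η) / Q) ≤ x ^ (1 - η) / Q := by
        rw [mul_div_assoc', div_le_div_iff_of_pos_right hQ0]
        calc 4 * x ^ (1 - 2 * η) ≤ x ^ η * x ^ (1 - 2 * η) := by gcongr
          _ = x ^ (1 - η) := by
              rw [← Real.rpow_add hx0]
              congr 1
              ring
      have h12 : x ^ (1 - ε) / Q ≤ x ^ (1 - 2 * η) / Q := by
        rw [div_le_div_iff_of_pos_right hQ0]
        exact Real.rpow_le_rpow_of_exponent_le hx1' (by linarith)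
      linarith
    exact_mod_cast card_le_card hfin

/-- If the Kakeya type statement fails, then the level of distribution `θ` fails for some random set of the class. -/
theorem t_NEG (hT : J_TAIL) (hKL : J_KL) (θ δ : ℝ) (hθ : 0 < θ) (hθ1 : θ < 1) (hδ : 0 ≤ δ)
    (h : ¬ Pool.Agent.Q120.LD.Kak θ δ) :
    ∃ (Ω : Type) (_ : MeasurableSpace Ω) (μ : Measure Ω) (_ : IsProbabilityMeasure μ) (A : Ω → Set ℕ),
      IsRandomSet A ∧ Info μ A δ ∧ ∀ᵐ ω ∂μ, ¬ Pool.Agent.Q120.LD.LevAt (A ω) θ := by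
  obtain ⟨W, hW1, hW2⟩ := t_SEL θ δ hθ hθ1 hδ h
  exact t_REM hT hKL θ δ W hθ hθ1 hδ hW1 hW2

end Pool.Agent.Q237.LD
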